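import Pool.Agent.H33.CUBE.RED
import Pool.Agent.H33.CUBE.FERM
import Pool.Agent.H46.CUBE.EPW
import Pool.Agent.H4.CUBE.BAS
import Pool.Agent.H99.CUBE.BAS2
import Pool.Agent.H99.CUBE.INT
import Pool.Agent.H99.CUBE.CTL
import Pool.Agent.H22.CUBE.RHB
import Pool.Agent.H19.CUBE.LIFT
import Pool.Agent.H4.CUBE.PSI
import Pool.Agent.H19.CUBE.MAL
import Pool.Agent.H7.CUBE.GFL
import Pool.Agent.H12.CUBE.EW
import Pool.Agent.H87.CUBE.TAME
import Pool.Agent.H7.CUBE.TFERM
import Pool.Agent.H98.CUBE.TEP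
import Pool.Agent.H81.CUBE.CI
import Pool.Agent.H81.CUBE.EEF
import Pool.Agent.H81.CUBE.GAM
import Pool.Agent.H22.CUBE.FDQ
import Pool.Agent.H46.CUBE.CPX
import Pool.Agent.H4.CUBE.ENZ
import Pool.Agent.H34.CUBE.CHI

/-!
# Cube project, block TAME: the theorems without hypotheses
-/

set_option autoImplicit false

namespace Pool.CUBE.TAll

theorem red : REDStmt := RED_proof
theorem fe : FERMStmt := FERM_proof
theorem epw : EPWStmt := EPW_proof
theorem bas : BASStmt := BAS_proof red
theorem bas2 : BAS2Stmt := BAS2_proof red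
theorem int : INTStmt := INT_proof red
theorem ctl : CTLStmt := CTL_proof int
theorem ci : CIStmt := CI_proof ctl
theorem eef : EEFStmt := EEF_proof
theorem gam : GAMStmt := GAM_proof
theorem rhb : RHBStmt := RHB_proof
theorem fdq : FDQStmt := FDQ_proof eef gam
theorem lift : LIFTStmt := LIFT_proof
theorem psi : PSIStmt := PSI_proof ci eef gam rhb fdq lift epsi epw
theorem cpx : CPXStmt := CPX_proof ctl eef gam rhb
theorem mal : MALStmt := MAL_proof
theorem gfl : GFLStmt := GFL_proof
theorem ew : EWStmt := EW_proof bas psi mal ci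
theorem chi : CHIStmt := CHI_proof
theorem tame : TAMEStmt := TAME_proof bas2 ci psi cpx mal gfl ew epw chi
theorem enz : ENZStmt := ENZ_proof
theorem tferm : TFERMStmt := TFERM_proof fe enz

end Pool.CUBE.TAll
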