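import Pool.Agent.H41.CUBE.TDefs
import Pool.Agent.H10.CM.FStmts2

/-!
# Cube project (MP_47888e_al), block TAME: the statements of the modules (board `cubt`)
-/

set_option autoImplicit false

open Finset MvPolynomial Pool.CM

namespace Pool.CUBE

/-! ### pure algebra -/

/-- REDUCTION with complexity. -/
def REDStmt : Prop := ∀ (A : Type) [CommRing A] (n D : ℕ), 0 < D → ∀ (P : Poly n A)
  (S : ℕ → AddSubgroup A), P.IsHomogeneous D → Filt S → (∀ m ≤ n + 1, RedAt P D (S 1) m) →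
  ∀ (m c : ℕ) (g : Poly n A), Wt (D * m) g → CoefIn (S c) g →
    ∃ (h : Fin (n + 1) → Poly n A) (r : Poly n A), g = r + ∑ k, Dop P k (h k) ∧ Rd D r ∧
      WtD D r ∧ (∀ a, coeff a r ≠ 0 → a.degree + (n + 1) ≤ D * m) ∧ (∀ k, WtD D (h k)) ∧
      CoefIn (S (c + m)) r ∧ ∀ k, CoefIn (S (c + m)) (h k)

/-- the generic Fermat pencil is nondegenerate (characteristic polynomial argument) -/
def FERMStmt : Prop := ∀ (E : Type) [Field E] [CharZero E] (n D : ℕ), 0 < D →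
  ∀ P0 : Poly n E, P0.IsHomogeneous D → ∀ m, RedAt (ferm D P0) D ⊤ m

/-- `e_P` is not a relation (functional at `x = ∞`) -/
def ENZStmt : Prop := ∀ (E : Type) [Field E] [CharZero E] (n D : ℕ), 0 < D →
  ∀ P0 : Poly n E, P0.IsHomogeneous D → eP D n (ferm D P0) ∉ Rel (ferm D P0)

/-- `e_P` is of level `n + 1`; base change; polynomial in the coefficients of `P` -/
def EPWStmt : Prop := ∀ (A : Type) [CommRing A] (n D : ℕ), 0 < D → ∀ P : Poly n A,
  P.IsHomogeneous D → Wt (D * (n + 1)) (eP D n P) ∧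
  (∀ (B : Type) [CommRing B] (f : A →+* B), eP D n (map f P) = map f (eP D n P)) ∧
  (∀ S : ℕ → AddSubgroup A, Filt S → CoefIn (S 1) P → CoefIn (S (n + 1)) (eP D n P))

/-- A basis of reduced monomials adapted to the levels `≤ n`. -/
def BASStmt : Prop := ∀ (F : Type) [Field F] [CharZero F] (n D : ℕ), 0 < D → ∀ P : Poly n F,
  P.IsHomogeneous D → (∀ m ≤ n + 1, RedAt P D ⊤ m) →
  ∃ (N : Finset (Fin (n + 1) →₀ ℕ)) (co : Poly n F →ₗ[F] (N → F)),
    IsCo P D (fun a : N => (monomial a.1 1 : Poly n F))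
      (fun a : N => (a.1.degree + (n + 1)) / D) co ∧
    (∀ a ∈ N, ∀ i, a i < D) ∧
    ∀ a : Fin (n + 1) →₀ ℕ, a.degree + (n + 1) ≤ D * n → ∀ b : N, co (monomial a 1) b ≠ 0 →
      b.1.degree + (n + 1) ≤ D * n

/-- The basis `e, reduced monomials of level ≤ n`, if `e` is not in the span of the levels
`≤ n`. -/
def BAS2Stmt : Prop := ∀ (F : Type) [Field F] [CharZero F] (n D : ℕ), 0 < D → ∀ P : Poly n F,
  P.IsHomogeneous D → (∀ m ≤ n + 1, RedAt P D ⊤ m) →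
  ∀ e : Poly n F, Wt (D * (n + 1)) e →
  (∀ w : Poly n F, WtD D w → (∀ a, coeff a w ≠ 0 → a.degree + (n + 1) ≤ D * n) →
    e - w ∉ Rel P) →
  ∃ (N : Finset (Fin (n + 1) →₀ ℕ)) (co : Poly n F →ₗ[F] (Option N → F)),
    IsCo P D (fun a : Option N => a.elim e fun a => (monomial a.1 1 : Poly n F))
      (fun a : Option N => a.elim (n + 1) fun a => (a.1.degree + (n + 1)) / D) co ∧
    ∀ a ∈ N, (∀ i, a i < D) ∧ a.degree + (n + 1) ≤ D * n

/-- Control from reduction: if the reduction data, and the data of the reduced monomials, are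
in `S 1`. -/
def INTStmt : Prop := ∀ (A : Type) [CommRing A] (n D : ℕ), 0 < D → ∀ (P : Poly n A)
  (S : ℕ → AddSubgroup A), P.IsHomogeneous D → Filt S → (∀ m ≤ n + 1, RedAt P D (S 1) m) →
  ∀ (N : Type) [Fintype N] [DecidableEq N] (b : N → Poly n A) (co : Poly n A →ₗ[A] (N → A)),
  (∀ i g, co (Dop P i g) = 0) →
  (∀ a : Fin (n + 1) →₀ ℕ, (∀ i, a i < D) → D ∣ a.degree + (n + 1) →
    ∃ h : Fin (n + 1) → Poly n A, (∀ i, WtD D (h i)) ∧ (∀ i, CoefIn (S 1) (h i)) ∧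
      (∀ j, co (monomial a 1) j ∈ S 1) ∧
      (monomial a 1 : Poly n A) = ∑ j, co (monomial a 1) j • b j + ∑ i, Dop P i (h i)) →
  Ctl P D b co S

/-! ### the complexity filtration -/

/-- The complexity filtration controls `P` and `P^φ`. -/
def CTLStmt : Prop := ∀ (X : Idx) (E : Type) [Field E] [CharZero E] (A : PF X E), A.Ax →
  ∀ (n D : ℕ), 0 < D → ∀ P : Poly n E, P.IsHomogeneous D → (∀ m ≤ n + 1, RedAt P D ⊤ m) →
  ∀ (N : Type) [Fintype N] [DecidableEq N] (b : N → Poly n E) (l : N → ℕ)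
    (co : Poly n E →ₗ[E] (N → E)), IsCo P D b l co → ∀ T : Finset E,
  ∃ (Cx : X.I → ℕ → AddSubgroup E) (c : ℕ), X.Ev fun i => IsCx A i (Cx i) c ∧
    (∀ x ∈ T, x ∈ Cx i 1 ∧ A.phi i x ∈ Cx i (X.p i)) ∧
    CoefIn (Cx i 1) P ∧ CoefIn (Cx i (X.p i)) (map (A.phi i) P) ∧
    (∀ j, CoefIn (Cx i 1) (b j)) ∧ (∀ j, CoefIn (Cx i (X.p i)) (map (A.phi i) (b j))) ∧
    Ctl P D b co (Cx i) ∧
    Ctl (map (A.phi i) P) D (fun j => map (A.phi i) (b j)) (coF (A.phi i) co)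
      (fun m => Cx i (X.p i * m))

/-- coordinates are integral and divisible on divisible polynomials; fixed data are integral -/
def CIStmt : Prop := ∀ (X : Idx) (E : Type) [Field E] [CharZero E] (A : PF X E), A.Ax →
  ∀ (n D : ℕ), 0 < D → ∀ P : Poly n E, P.IsHomogeneous D → (∀ m ≤ n + 1, RedAt P D ⊤ m) →
  ∀ (N : Type) [Fintype N] [DecidableEq N] (b : N → Poly n E) (l : N → ℕ)
    (co : Poly n E →ₗ[E] (N → E)), IsCo P D b l co →
  X.Ev fun i => CInt A i P ∧ (∀ j, CInt A i (b j)) ∧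
    (∀ g, CInt A i g → (∀ j, co g j ∈ A.O i) ∧ ∀ j, coF (A.phi i) co g j ∈ A.O i) ∧
    (∀ M g, CDv A i M g → (∀ j, A.Dv i M (co g j)) ∧ ∀ j, A.Dv i M (coF (A.phi i) co g j)) ∧
    (∀ g, CInt A i g → WtD D g → ∃ h : Fin (n + 1) → Poly n E, (∀ k, WtD D (h k)) ∧
      (∀ k, CInt A i (h k)) ∧ g = ∑ j, co g j • b j + ∑ k, Dop P k (h k))

/-! ### Frobenius data -/

/-- `E_P`: homogeneous, integral, and the derivatives of `P ^ p = P^φ(z ^ p) + p E_P` -/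
def EEFStmt : Prop := ∀ (X : Idx) (E : Type) [Field E] [CharZero E] (A : PF X E), A.Ax →
  ∀ (i : X.I) (n D : ℕ) (P : Poly n E), P.IsHomogeneous D → CInt A i P →
    (EE (X.p i) (A.phi i) P).IsHomogeneous (X.p i * D) ∧
    CInt A i (EE (X.p i) (A.phi i) P) ∧
    P ^ X.p i = expand (X.p i) (map (A.phi i) P) +
      ((X.p i : ℕ) : Poly n E) * EE (X.p i) (A.phi i) P ∧
    (∀ k, P ^ (X.p i - 1) * ez k P = expand (X.p i) (ez k (map (A.phi i) P)) +
      ez k (EE (X.p i) (A.phi i) P)) ∧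
    (∀ j : A.J, P ^ (X.p i - 1) * cD (A.D j) P =
        expand (X.p i) (map (A.phi i) (cD (A.D j) P)) +
        cD (A.D j) (EE (X.p i) (A.phi i) P) ∧
      cD (A.D j) (map (A.phi i) P) = ((X.p i : ℕ) : E) • map (A.phi i) (cD (A.D j) P)) ∧
    (∀ (Cx : ℕ → AddSubgroup E) (c : ℕ), IsCx A i Cx c → CoefIn (Cx 1) P →
      CoefIn (Cx (X.p i)) (map (A.phi i) P) → CoefIn (Cx (X.p i)) (EE (X.p i) (A.phi i) P))

/-- the numbers `p ^ j / j!` and `cc` at a place, `p` large -/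
def GAMStmt : Prop := ∀ (X : Idx) (E : Type) [Field E] [CharZero E] (A : PF X E), A.Ax →
  ∀ n M : ℕ, 1 ≤ M → X.Ev fun i =>
    (∀ j, gam E (X.p i) j ∈ A.O i) ∧ (∀ j, M ≤ j → A.Dv i M (gam E (X.p i) j)) ∧
    (∀ (Cx : ℕ → AddSubgroup E) (c : ℕ), IsCx A i Cx c → ∀ j < M, gam E (X.p i) j ∈ Cx 0) ∧
    (∀ (Cx : ℕ → AddSubgroup E) (c : ℕ), IsCx A i Cx c → ∀ m, 1 ≤ m → m ≤ n + 1 → ∀ j < M,
      cc E (X.p i) n m j ∈ Cx 0) ∧
    (∀ m, 1 ≤ m → m ≤ n + 1 → ∀ j < M, cc E (X.p i) n m j ∈ A.O i ∧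
      (m ≤ n → A.Dv i 1 (cc E (X.p i) n m j)) ∧
      cc E (X.p i) n m j * ((FD.K (X.p i * (m + j)) (m + j) : ℕ) : E) =
        (X.p i : E) ^ n * gam E (X.p i) j)

/-- elementary properties of `rho0`: `Psi` over a ring, base change, weights, integrality,
complexity (`z ^ a` of level `m ≤ n + 1`, `t = 1`) -/
def RHBStmt : Prop :=
  (∀ (n : ℕ) (A : Type) [CommRing A] (F : FD n A), 0 < F.D → F.E.IsHomogeneous (F.p * F.D) →
    ∀ g : Poly n A, F.psi0 g = cls F.P' (rho0 F.p F.D F.J F.γ F.P F.E g)) ∧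
  (∀ (n : ℕ) (A B : Type) [CommRing A] [CommRing B] (f : A →+* B) (p D J : ℕ) (γ : ℕ → A)
    (P E g : Poly n A), map f (rho0 p D J γ P E g) =
      rho0 p D J (fun j => f (γ j)) (map f P) (map f E) (map f g)) ∧
  (∀ (n : ℕ) (A : Type) [CommRing A] (p D J : ℕ) (γ : ℕ → A) (P E : Poly n A), 2 ≤ p → 0 < D →
    P.IsHomogeneous D → E.IsHomogeneous (p * D) → ∀ g, WtD D (rho0 p D J γ P E g)) ∧
  (∀ (n : ℕ) (A : Type) [CommRing A] (S : ℕ → AddSubgroup A) (p D J m k : ℕ) (γ : ℕ → A)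
    (P E g : Poly n A), 2 ≤ p → 0 < D → P.IsHomogeneous D → E.IsHomogeneous (p * D) →
    Filt S → (∀ j, j < J → γ j ∈ S 0) → CoefIn (S 1) P → CoefIn (S p) E → 1 ≤ m → m ≤ p →
    Wt (D * m) g → CoefIn (S k) g →
    CoefIn (S (k + p * (J + 1))) (rho0 p D J γ P E g) ∧
      ∀ a, coeff a (rho0 p D J γ P E g) ≠ 0 →
        ∃ t, 1 ≤ t ∧ t ≤ J ∧ a.degree + (n + 1) = D * t)

/-- the Frobenius data over `O / p ^ M` -/
def FDQStmt : Prop := ∀ (X : Idx) (E : Type) [Field E] [CharZero E] (A : PF X E), A.Ax →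
  ∀ (n D M : ℕ), 0 < D → 1 ≤ M → X.Ev fun i => ∀ P : Poly n E, P.IsHomogeneous D →
    CInt A i P → ∃ F : FD n (Ob A i M), F.p = X.p i ∧ F.D = D ∧ F.J = M ∧
      RedTo A i M P F.P ∧ RedTo A i M (map (A.phi i) P) F.P' ∧
      RedTo A i M (EE (X.p i) (A.phi i) P) F.E ∧ F.E.IsHomogeneous (X.p i * D) ∧
      (∀ j, ∃ x : A.O i, (x : E) = gam E (X.p i) j ∧ Ideal.Quotient.mk _ x = F.γ j) ∧
      ∀ j : A.J, ∃ δ : Derivation ℤ (Ob A i M) (Ob A i M), F.Hor δ ∧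
        ∀ x y : A.O i, A.D j (x : E) = (y : E) →
          δ (Ideal.Quotient.mk _ x) = Ideal.Quotient.mk _ y

/-- reduction modulo `p ^ M` and relations: a polynomial whose reduction is a relation has
coordinates divisible by `p ^ M` -/
def LIFTStmt : Prop := ∀ (X : Idx) (E : Type) [Field E] [CharZero E] (A : PF X E), A.Ax →
  ∀ (i : X.I) (n M : ℕ) (P : Poly n E), CInt A i P → ∀ (N : Type) [Fintype N]
    (co : Poly n E →ₗ[E] (N → E)), (∀ k g, co (Dop P k g) = 0) →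
    (∀ g, CDv A i M g → ∀ j, A.Dv i M (co g j)) →
    ∀ (P' : Poly n (Ob A i M)), RedTo A i M P P' → ∀ (g : Poly n E) (g' : Poly n (Ob A i M)),
      RedTo A i M g g' → g' ∈ Rel P' → ∀ j, A.Dv i M (co g j)

/-! ### the matrices -/

/-- `B` represents `Psi`: `co^φ(ρ(g)) = B co(g)` modulo `p ^ M`; `A` and `B`: `B A = p ^ n`;
horizontality of `B`; `y(g)` is divisible by `p` on levels `≤ n`; the special vector. -/
def PSIStmt : Prop := ∀ (X : Idx) (E : Type) [Field E] [CharZero E] (A : PF X E), A.Ax →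
  ∀ (n D : ℕ), 0 < D → ∀ P : Poly n E, P.IsHomogeneous D → (∀ m ≤ n + 1, RedAt P D ⊤ m) →
  ∀ (N : Type) [Fintype N] [DecidableEq N] (b : N → Poly n E) (l : N → ℕ)
    (co : Poly n E →ₗ[E] (N → E)), IsCo P D b l co → ∀ M, 1 ≤ M →
  X.Ev fun i => ∀ B Am : Matrix N N E, B = matB (X.p i) D M (A.phi i) P b co →
    Am = matA (X.p i) M (A.phi i) P b l co →
    (∀ a j, B a j ∈ A.O i) ∧ (∀ a j, Am a j ∈ A.O i) ∧
    (∀ g, CInt A i g → WtD D g → ∀ a,
      A.Dv i M (coF (A.phi i) co (rhoE (X.p i) D M (A.phi i) P g) a - ∑ j, B a j * co g j)) ∧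
    (∀ a j, A.Dv i M ((B * Am) a j - (X.p i : E) ^ n * (if a = j then 1 else 0))) ∧
    (∀ j : A.J, ∀ a c, A.Dv i M ((B * matG (A.D j) P b co) a c - A.D j (B a c) -
      (X.p i : E) * ((matG (A.D j) P b co).map (A.phi i) * B) a c)) ∧
    (∀ j, l j ≤ n → ∀ a, A.Dv i 1 (Am a j)) ∧
    (∀ a, A.Dv i M (∑ j, B a j * co (eP D n P) j -
      (X.p i : E) ^ n * A.phi i (co (eP D n P) a)))

/-- complexity of `A` and `B` -/
def CPXStmt : Prop := ∀ (X : Idx) (E : Type) [Field E] [CharZero E] (A : PF X E), A.Ax →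
  ∀ (n D : ℕ), 0 < D → ∀ P : Poly n E, P.IsHomogeneous D → (∀ m ≤ n + 1, RedAt P D ⊤ m) →
  ∀ (N : Type) [Fintype N] [DecidableEq N] (b : N → Poly n E) (l : N → ℕ)
    (co : Poly n E →ₗ[E] (N → E)), IsCo P D b l co → ∀ M, 1 ≤ M → ∃ C, X.Ev fun i =>
    (∀ a j, matB (X.p i) D M (A.phi i) P b co a j ∈ A.t i (C * X.p i)) ∧
    (∀ a j, matA (X.p i) M (A.phi i) P b l co a j ∈ A.t i (C * X.p i))

/-- matrix algebra at one place -/
def MALStmt : Prop := ∀ (X : Idx) (E : Type) [Field E] [CharZero E] (A : PF X E), A.Ax →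
  ∀ (i : X.I) (n M : ℕ), 1 ≤ M → ∀ (N : Type) [Fintype N] [DecidableEq N]
    (B Am : Matrix N N E) (G : A.J → Matrix N N E) (x : N → E),
    (∀ a j, B a j ∈ A.O i) → (∀ a j, Am a j ∈ A.O i) → (∀ j a c, G j a c ∈ A.O i) →
    (∀ a, x a ∈ A.O i) →
    (∀ a j, A.Dv i (M + 2 * n) ((B * Am) a j - (X.p i : E) ^ n * (if a = j then 1 else 0))) →
    (∀ j : A.J, ∀ a c, A.Dv i (M + 2 * n) ((B * G j) a c - A.D j (B a c) -
      (X.p i : E) * ((G j).map (A.phi i) * B) a c)) →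
    (∀ a, A.Dv i (M + 2 * n) (∑ j, B a j * x j - (X.p i : E) ^ n * A.phi i (x a))) →
    (∀ a j, A.Dv i M ((Am * B) a j - (X.p i : E) ^ n * (if a = j then 1 else 0))) ∧
    (∀ j : A.J, ∀ a c, A.Dv i M (A.D j (Am a c) + (G j * Am) a c -
      (X.p i : E) * (Am * (G j).map (A.phi i)) a c)) ∧
    (∀ a, A.Dv i M (∑ j, Am a j * A.phi i (x j) - x a))

/-- the connection matrices: flat, kill `e` -/
def GFLStmt : Prop := ∀ (X : Idx) (E : Type) [Field E] [CharZero E] (A : PF X E), A.Ax →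
  ∀ (n D : ℕ), 0 < D → ∀ P : Poly n E, P.IsHomogeneous D →
  ∀ (N : Type) [Fintype N] [DecidableEq N] (b : N → Poly n E) (l : N → ℕ)
    (co : Poly n E →ₗ[E] (N → E)), IsCo P D b l co →
    (∀ (j : A.J) (g : Poly n E), WtD D g → ∀ a, co (nab0 (A.D j) P g) a =
      A.D j (co g a) + ∑ c, matG (A.D j) P b co a c * co g c) ∧
    (∀ j k : A.J, (matG (A.D k) P b co).map (A.D j) +
        matG (A.D j) P b co * matG (A.D k) P b co =
      (matG (A.D j) P b co).map (A.D k) + matG (A.D k) P b co * matG (A.D j) P b co) ∧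
    (∀ (j : A.J) a, A.D j (co (eP D n P) a) +
      ∑ c, matG (A.D j) P b co a c * co (eP D n P) c = 0)

/-- `e` is not in the span of the levels `≤ n` -/
def EWStmt : Prop := ∀ (X : Idx) (E : Type) [Field E] [CharZero E] (A : PF X E), A.Ax →
  ∀ (n D : ℕ), 0 < D → ∀ P : Poly n E, P.IsHomogeneous D → (∀ m ≤ n + 1, RedAt P D ⊤ m) →
  eP D n P ∉ Rel P →
  ∀ w : Poly n E, WtD D w → (∀ a, coeff a w ≠ 0 → a.degree + (n + 1) ≤ D * n) →
    eP D n P - w ∉ Rel P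

/-- `chi` (the coordinate of `e`) is zero on the levels `≤ n` -/
def CHIStmt : Prop := ∀ (F : Type) [Field F] (n D : ℕ), 0 < D → ∀ P : Poly n F,
  ∀ (N : Finset (Fin (n + 1) →₀ ℕ)) (co : Poly n F →ₗ[F] (Option N → F))
    (b : Option N → Poly n F) (l : Option N → ℕ), IsCo P D b l co → b none = eP D n P →
  (∀ x : N, b (some x) = monomial x.1 1) → (∀ x : N, x.1.degree + (n + 1) ≤ D * n) →
  (∀ w : Poly n F, WtD D w → (∀ a, coeff a w ≠ 0 → a.degree + (n + 1) ≤ D * n) →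
    eP D n P - w ∉ Rel P) →
  ∀ c : Fin (n + 1) →₀ ℕ, c.degree + (n + 1) ≤ D * n → co (monomial c 1) none = 0

/-- OUTPUT of the block: the package of `P`. -/
def TAMEStmt : Prop := ∀ (X : Idx) (E : Type) [Field E] [CharZero E] (A : PF X E), A.Ax →
  ∀ (n D : ℕ), 0 < D → ∀ P : Poly n E, P.IsHomogeneous D → (∀ m ≤ n + 1, RedAt P D ⊤ m) →
  eP D n P ∉ Rel P →
  ∃ (N : Finset (Fin (n + 1) →₀ ℕ)) (co : Poly n E →ₗ[E] (Option N → E))
    (b : Option N → Poly n E) (l : Option N → ℕ),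
    b none = eP D n P ∧ (∀ a : N, b (some a) = monomial a.1 1) ∧
    (∀ a ∈ N, (∀ i, a i < D) ∧ a.degree + (n + 1) ≤ D * n) ∧ IsCo P D b l co ∧
    (∀ c : Fin (n + 1) →₀ ℕ, c.degree + (n + 1) ≤ D * n → co (monomial c 1) none = 0) ∧
    Pool.H93.Cube.Pkg A (fun j => matG (A.D j) P b co)
      (fun a => if a = none then 1 else 0) none n ∧
    ∀ M M', M + 2 * n + 1 ≤ M' → ∃ C, X.Ev fun i => ∃ Phi : Matrix (Option N) (Option N) E,
      Pool.H93.Cube.Frob A (fun j => matG (A.D j) P b co) (fun a => if a = none then 1 else 0)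
        none n i M C Phi (matB (X.p i) D M' (A.phi i) P b co).transpose

/-- OUTPUT for the generic Fermat pencil -/
def TFERMStmt : Prop := ∀ (E : Type) [Field E] [CharZero E] (n D : ℕ), 0 < D →
  ∀ P0 : Poly n E, P0.IsHomogeneous D → (ferm D P0).IsHomogeneous D ∧
    (∀ m, RedAt (ferm D P0) D ⊤ m) ∧ eP D n (ferm D P0) ∉ Rel (ferm D P0)

/-! ### special vectors over a ring -/

/-- `Psi` of `e_P` (proved by helper98) -/
def EPSIStmt : Prop := ∀ (n : ℕ) (A : Type) [CommRing A] (F : FD n A), 0 < F.D →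
  F.E.IsHomogeneous (F.p * F.D) → n + 1 ≤ F.p → 1 ≤ F.J →
  F.psi0 (eP F.D n F.P) = (F.p : A) ^ n • cls F.P' (eP F.D n F.P')

/-- horizontality of `e_P` -/
def EHORStmt : Prop := ∀ (n D : ℕ) (A : Type) [CommRing A] (P : Poly n A), 0 < D →
  IsUnit (D : A) → P.IsHomogeneous D → ∀ δ : Derivation ℤ A A, nab0 δ P (eP D n P) ∈ Rel P

end Pool.CUBE
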