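import Pool.Agent.H33.CUBE.JR
import Pool.Agent.H98.CUBE.TEP
import Pool.Agent.H22.CUBE.RHB

/-!
# Cube project, block TAME J: module F1 (the Frobenius for `P = Σ`, `D = 1`)
-/

set_option autoImplicit false

open Finset MvPolynomial Pool.CM

namespace Pool.CUBE

namespace F1h

theorem map_Sg {n : ℕ} {A B : Type} [CommRing A] [CommRing B] (f : A →+* B) :
    map f (Sg n A) = Sg n B := by
  rw [Sg, Sg, map_sum]
  simp only [map_X]

theorem exists_int (n p : ℕ) (hp : p.Prime) : ∃ e : Poly n ℤ,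
    Sg n ℤ ^ p = expand p (Sg n ℤ) + (p : Poly n ℤ) * e := by
  have := Fact.mk hp
  have h : C (p : ℤ) ∣ Sg n ℤ ^ p - expand p (Sg n ℤ) := by
    rw [MvPolynomial.C_dvd_iff_zmod, map_sub, map_pow, map_expand, expand_zmod, sub_self]
  obtain ⟨e, he⟩ := h
  refine ⟨e, ?_⟩
  rw [sub_eq_iff_eq_add'] at he
  rw [he]
  congr 2

theorem int_hom (n p : ℕ) (hp : p.Prime) {e : Poly n ℤ}
    (he : Sg n ℤ ^ p = expand p (Sg n ℤ) + (p : Poly n ℤ) * e) : e.IsHomogeneous p := by
  have h1 : ((p : Poly n ℤ) * e).IsHomogeneous p := by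
    have : (p : Poly n ℤ) * e = Sg n ℤ ^ p - expand p (Sg n ℤ) := by rw [he]; ring
    rw [this]
    refine IsHomogeneous.sub ?_ ?_
    · simpa using (JRh.Sg_hom n ℤ).pow p
    · simpa using expand_isHomogeneous (JRh.Sg_hom n ℤ) p
  intro a ha
  refine h1 ?_
  have : (p : Poly n ℤ) = C (p : ℤ) := by rw [map_natCast]
  rw [this, coeff_C_mul]
  exact mul_ne_zero (by exact_mod_cast hp.ne_zero) ha

theorem pderiv_Sg {n : ℕ} {A : Type} [CommRing A] (i : Fin (n + 1)) :
    pderiv i (Sg n A) = 1 := by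
  classical
  rw [Sg, map_sum]
  simp only [pderiv_X]
  rw [Finset.sum_eq_single i]
  · simp
  · intro j _ hj
    rw [Pi.single_eq_of_ne hj]
  · intro h; exact absurd (mem_univ i) h

theorem int_der (n p : ℕ) (hp : p.Prime) {e : Poly n ℤ}
    (he : Sg n ℤ ^ p = expand p (Sg n ℤ) + (p : Poly n ℤ) * e) (i : Fin (n + 1)) :
    Sg n ℤ ^ (p - 1) * pderiv i (Sg n ℤ) =
      X i ^ (p - 1) * expand p (pderiv i (Sg n ℤ)) + pderiv i e := by
  have h1 := congrArg (pderiv i) he
  have hp0 : (p : Poly n ℤ) ≠ 0 := by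
    have : (p : Poly n ℤ) = C (p : ℤ) := by rw [map_natCast]
    rw [this]
    intro h
    rw [MvPolynomial.C_eq_zero] at h
    exact hp.ne_zero (by exact_mod_cast h)
  have h2 : pderiv i (expand p (Sg n ℤ)) = (p : Poly n ℤ) * X i ^ (p - 1) := by
    rw [Sg, map_sum, map_sum]
    have : ∀ j : Fin (n + 1), pderiv i (expand p (X j : Poly n ℤ)) =
        if j = i then (p : Poly n ℤ) * X i ^ (p - 1) else 0 := by
      intro j
      rw [expand_X, Derivation.leibniz_pow, pderiv_X, smul_eq_mul, nsmul_eq_mul]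
      split_ifs with h
      · subst h; simp
      · rw [Pi.single_eq_of_ne h, mul_zero, mul_zero]
    rw [Finset.sum_congr rfl fun j _ => this j, Finset.sum_ite_eq' univ i, if_pos (mem_univ i)]
  rw [map_add, h2, Derivation.leibniz_pow, Derivation.leibniz, Derivation.map_natCast,
    pderiv_Sg, smul_eq_mul, smul_eq_mul, smul_zero, add_zero, nsmul_eq_mul] at h1
  rw [pderiv_Sg, map_one, mul_one, mul_one]
  refine mul_left_cancel₀ hp0 ?_
  rw [mul_add, ← h1]
  ring

/-- the rational number `p ^ j / j!` -/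
noncomputable def gq (p j : ℕ) : ℚ := (p : ℚ) ^ j / (j.factorial : ℚ)

theorem gq_form (p J : ℕ) (hp : p.Prime) (hJ : J + 2 ≤ p) (j : ℕ) :
    ∃ k m : ℕ, ¬ p ∣ m ∧ gq p j = (p : ℚ) ^ k * (m : ℚ)⁻¹ ∧ (J ≤ j → J ≤ k) := by
  have := Fact.mk hp
  obtain ⟨v, m, hm, hv⟩ := Nat.exists_eq_pow_mul_and_not_dvd (Nat.factorial_ne_zero j) p
    hp.ne_one
  have hpv : padicValNat p j.factorial = v := by
    rw [hv, padicValNat.mul (pow_ne_zero _ hp.ne_zero) (by rintro rfl; exact hm (dvd_zero _)),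
      padicValNat.prime_pow, padicValNat.eq_zero_of_not_dvd hm, add_zero]
  have hvj : v ≤ j := by
    rw [← hpv]; exact padicValNat_factorial_le p j
  have hm0 : (m : ℚ) ≠ 0 := by
    intro h
    have : m = 0 := by exact_mod_cast h
    exact hm (this ▸ dvd_zero _)
  have hp0 : (p : ℚ) ≠ 0 := by exact_mod_cast hp.ne_zero
  refine ⟨j - v, m, hm, ?_, fun hJj => ?_⟩
  · rw [gq, hv]
    push_cast
    have e1 : (p : ℚ) ^ j = (p : ℚ) ^ (j - v) * (p : ℚ) ^ v := by
      rw [← pow_add, Nat.sub_add_cancel hvj]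
    rw [e1]
    field_simp
  · rcases Nat.eq_zero_or_pos v with h0 | h0
    · omega
    · have hj0 : j ≠ 0 := by
        rintro rfl
        rw [Nat.factorial_zero] at hv
        have : p ^ v ∣ 1 := ⟨m, hv⟩
        have h3 := Nat.le_of_dvd one_pos this
        have h4 : p ^ 1 ≤ p ^ v := Nat.pow_le_pow_right hp.pos h0
        have := hp.two_le
        omega
      have h1 := sub_one_mul_padicValNat_factorial_lt_of_ne_zero p hj0
      rw [hpv] at h1
      obtain ⟨q, rfl⟩ : ∃ q, p = q + 2 := ⟨p - 2, by omega⟩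
      obtain ⟨w, rfl⟩ : ∃ w, v = w + 1 := ⟨v - 1, by omega⟩
      have h2 : (q + 2 - 1) * (w + 1) = q * w + q + w + 1 := by
        have : q + 2 - 1 = q + 1 := by omega
        rw [this]; ring
      rw [h2] at h1
      have h3 : 0 ≤ q * w := Nat.zero_le _
      omega

theorem gq_succ (p j : ℕ) : ((j + 1 : ℕ) : ℚ) * gq p (j + 1) = (p : ℚ) * gq p j := by
  unfold gq
  have h1 : ((j + 1 : ℕ) : ℚ) ≠ 0 := Nat.cast_ne_zero.2 (Nat.succ_ne_zero j)
  have h2 : ((j.factorial : ℕ) : ℚ) ≠ 0 := Nat.cast_ne_zero.2 (Nat.factorial_ne_zero j)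
  rw [Nat.factorial_succ, Nat.cast_mul]
  field_simp
  rw [pow_succ']

theorem gq_mul (p a b : ℕ) : gq p a * gq p b = ((a + b).choose a : ℚ) * gq p (a + b) := by
  unfold gq
  have h1 : ((a.factorial : ℕ) : ℚ) ≠ 0 := Nat.cast_ne_zero.2 (Nat.factorial_ne_zero a)
  have h2 : ((b.factorial : ℕ) : ℚ) ≠ 0 := Nat.cast_ne_zero.2 (Nat.factorial_ne_zero b)
  have h4 : (((a + b).choose a : ℕ) : ℚ) * (a.factorial : ℚ) * (b.factorial : ℚ) =
      ((a + b).factorial : ℚ) := by
    have := Nat.choose_mul_factorial_mul_factorial (Nat.le_add_right a b)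
    rw [Nat.add_sub_cancel_left] at this
    rw [← this]
    push_cast
    ring
  rw [← h4]
  have h5 : (((a + b).choose a : ℕ) : ℚ) ≠ 0 :=
    Nat.cast_ne_zero.2 (Nat.choose_pos (Nat.le_add_right a b)).ne'
  field_simp
  rw [pow_add]

theorem eP_Sg {A : Type} [CommRing A] : ∀ n : ℕ, eP 1 n (Sg n A) = 1
  | 0 => by
    change monomial (Finsupp.single 0 (1 - 1)) (coeff (Finsupp.single 0 1) (Sg 0 A)) = 1
    have : Sg 0 A = X 0 := by
      rw [Sg]; simp
    rw [this, coeff_X]
    simp
  | n + 1 => by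
    change pderiv 0 (Sg (n + 1) A) * rename Fin.succ (eP 1 n (faceP (Sg (n + 1) A))) = 1
    have h : faceP (Sg (n + 1) A) = Sg n A := by
      rw [faceP, Sg, map_sum]
      simp only [aeval_X]
      rw [Fin.sum_univ_succ]
      simp [Sg]
    rw [h, eP_Sg n, pderiv_Sg, map_one, mul_one]

theorem JS_map {n : ℕ} {A B : Type} [CommRing A] [CommRing B] (f : A →+* B) (g : Poly n A) :
    JS (map f g) = f (JS g) := by
  induction g using MvPolynomial.induction_on' with
  | add g1 g2 h1 h2 => rw [map_add, map_add, h1, h2, map_add, map_add]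
  | monomial a r =>
    rw [map_monomial, JS, linMon_monomial, smul_eq_mul, JS, linMon_monomial, smul_eq_mul, map_mul,
      map_natCast]

theorem wt_one {n : ℕ} {A : Type} [CommRing A] {N : ℕ} {g : Poly n A} {p : ℕ} (hp : 0 < p)
    (hg : Wt (p * N) g) : Wt N (psi p g) := by
  classical
  intro a ha
  rw [← RHB.lev_of_wt hg, psi_lev p hp] at ha
  by_contra h
  apply ha
  have key : ∀ h' : Poly n A, coeff a (lev N h') = 0 := by
    intro h'
    induction h' using MvPolynomial.induction_on' with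
    | add g1 g2 h1 h2 => rw [map_add, coeff_add, h1, h2, add_zero]
    | monomial b s =>
      rw [lev_monomial]
      split_ifs with hb
      · rw [coeff_monomial, if_neg]
        rintro rfl
        exact h hb
      · rw [coeff_zero]
  exact key _

/-- the statement over a ring `A` with `γ`, `p ^ J = 0` -/
theorem main (hIOB : IOBStmt) {n : ℕ} {A : Type} [CommRing A] (F : FD n A) (hD : F.D = 1)
    (hP : F.P = Sg n A) (hP' : F.P' = Sg n A) (hE : F.E.IsHomogeneous F.p) (hn : n + 1 ≤ F.p)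
    (hJ : 1 ≤ F.J) (a t : ℕ) (ht : 1 ≤ t) (hta : t ≤ a) (hat : a ≤ F.p * t) (h : Poly n A)
    (hh : Wt a h) :
    ((FD.K a t : ℕ) : A) * ∑ j ∈ range F.J, ((-1) ^ j * F.γ j) *
      JS (psi F.p (h * Sg n A ^ (F.p * t - a) * F.E ^ j)) = (F.p : A) ^ n * JS h := by
  obtain ⟨r1, -, r3⟩ := hIOB.2 A n
  have hD0 : 0 < F.D := by rw [hD]; exact one_pos
  have hker : Rel F.P' ≤ LinearMap.ker (JS : Poly n A →ₗ[A] A) := by
    rw [Rel, iSup_le_iff]
    rintro i _ ⟨g, rfl⟩
    rw [LinearMap.mem_ker, hP']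
    exact r1 i g
  let L : VP F.P' →ₗ[A] A := (Rel F.P').liftQ JS hker
  have hL : ∀ g, L (cls F.P' g) = JS g := fun g => rfl
  -- `psi0 h = JS h p ^ n`
  have e1 : F.psi0 h = JS h • F.psi0 1 := by
    rw [← F.Psi_cls hD0, ← F.Psi_cls hD0]
    have : cls F.P h = JS h • cls F.P 1 := by
      rw [← map_smul, ← sub_eq_zero, ← map_sub, Submodule.mkQ_apply,
        Submodule.Quotient.mk_eq_zero, smul_eq_C_mul, mul_one, hP]
      exact r3 h
    rw [this, map_smul]
  have e2 : F.psi0 1 = (F.p : A) ^ n • cls F.P' 1 := by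
    have := epsi n A F hD0 (by rw [hD, mul_one]; exact hE) hn hJ
    have h1 : eP 1 n F.P' = 1 := by rw [hP', eP_Sg]
    rwa [hD, hP, eP_Sg, h1] at this
  have hJ1 : JS (1 : Poly n A) = 1 := by
    have : (1 : Poly n A) = monomial 0 1 := rfl
    rw [this, JS, linMon_monomial]
    simp
  have e3 : L (F.psi0 h) = (F.p : A) ^ n * JS h := by
    rw [e1, e2, map_smul, map_smul, hL, hJ1, smul_eq_mul, smul_eq_mul, mul_one, mul_comm]
  -- the formula for `psi0 h`
  have e4 : F.psi0 h = F.psiT a t h := by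
    have := F.psi0_lev hD0 a (ht.trans hta) t hta hat h
    rwa [hD, one_mul, RHB.lev_of_wt hh] at this
  rw [← e3, e4, FD.psiT, map_smul, smul_eq_mul, FD.r, rho, map_sum]
  congr 1
  refine Finset.sum_congr rfl fun j _ => ?_
  rw [map_smul, smul_eq_mul, tau_apply, hL, hD, one_mul, hP]
  congr 3
  symm
  apply RHB.lev_of_wt
  have w1 : Wt (a + (F.p * t - a)) (h * Sg n A ^ (F.p * t - a)) := by
    refine RHB.wt_mul hh ?_
    simpa using (JRh.Sg_hom n A).pow (F.p * t - a)
  have w2 := RHB.wt_mul w1 (hE.pow j)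
  have : a + (F.p * t - a) + F.p * j = F.p * (t + j) := by
    rw [mul_add]; omega
  rwa [this] at w2

end F1h

open F1h

theorem F1_proof (hIOB : IOBStmt) : F1Stmt := by
  intro B _ _ O0 p hp hO n J hJ hJp hnp Es hEs a t ht hta hat h hh hhO
  obtain ⟨e, he⟩ := exists_int n p hp
  have hehom := int_hom n p hp he
  have heder := int_der n p hp he
  -- `γ`
  have hpO : ∀ k : ℕ, (p : B) ^ k ∈ O0 := fun k => O0.pow_mem (natCast_mem _ _) _
  have hgO : ∀ j, ∃ x : O0, (x : B) = algebraMap ℚ B (gq p j) ∧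
      (J ≤ j → ∃ y : O0, x = ((p : ℕ) : O0) ^ J * y) := by
    intro j
    obtain ⟨k, m, hm, e1, hk⟩ := gq_form p J hp hJp j
    have e2 : algebraMap ℚ B (gq p j) = (p : B) ^ k * algebraMap ℚ B ((m : ℚ)⁻¹) := by
      rw [e1, map_mul, map_pow, map_natCast]
    refine ⟨⟨algebraMap ℚ B (gq p j), ?_⟩, rfl, fun hj => ?_⟩
    · rw [e2]; exact O0.mul_mem (hpO k) (hO m hm)
    · refine ⟨⟨(p : B) ^ (k - J) * algebraMap ℚ B ((m : ℚ)⁻¹), O0.mul_mem (hpO _) (hO m hm)⟩,
        Subtype.ext ?_⟩
      change algebraMap ℚ B (gq p j) = (O0.subtype (((p : ℕ) : O0) ^ J * ⟨(p : B) ^ (k - J) *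
        algebraMap ℚ B ((m : ℚ)⁻¹), O0.mul_mem (hpO _) (hO m hm)⟩))
      rw [map_mul, map_pow, map_natCast, e2]
      change _ = (p : B) ^ J * ((p : B) ^ (k - J) * algebraMap ℚ B ((m : ℚ)⁻¹))
      rw [← mul_assoc, ← pow_add, Nat.add_sub_cancel' (hk hj)]
  choose γ hγ hγJ using hgO
  let q : O0 →+* O0 ⧸ Ideal.span {((p : ℕ) : O0) ^ J} := Ideal.Quotient.mk _
  have hsub : ∀ k : ℕ, O0.subtype (k : O0) = (k : B) := fun k => map_natCast _ k
  have hinj : ∀ x y : O0, O0.subtype x = O0.subtype y → x = y := fun x y => Subtype.ext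
  let ιA : ℤ →+* O0 ⧸ Ideal.span {((p : ℕ) : O0) ^ J} := Int.castRingHom _
  have γ0 : γ 0 = 1 := hinj _ _ (by
    change (γ 0 : B) = _
    rw [hγ, map_one, gq]
    simp)
  have γs : ∀ j, ((j + 1 : ℕ) : O0) * γ (j + 1) = (p : O0) * γ j := fun j => hinj _ _ (by
    rw [map_mul, map_mul, hsub, hsub]
    change _ * (γ (j + 1) : B) = _ * (γ j : B)
    have := congrArg (algebraMap ℚ B) (gq_succ p j)
    rw [map_mul, map_mul, map_natCast, map_natCast] at this
    rw [hγ, hγ, this])
  have γmul : ∀ i j, γ i * γ j = ((i + j).choose i : O0) * γ (i + j) := fun i j => hinj _ _ (by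
    rw [map_mul, map_mul, hsub]
    change (γ i : B) * (γ j : B) = _ * (γ (i + j) : B)
    have := congrArg (algebraMap ℚ B) (gq_mul p i j)
    rw [map_mul, map_mul, map_natCast] at this
    rw [hγ, hγ, hγ, this])
  let F : FD n (O0 ⧸ Ideal.span {((p : ℕ) : O0) ^ J}) :=
    { p := p
      D := 1
      J := J
      P := Sg n _
      P' := Sg n _
      E := map ιA e
      γ := fun j => q (γ j)
      hp := hp.two_le
      hD := by rw [Nat.cast_one]; exact isUnit_one
      hP := JRh.Sg_hom n _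
      hP' := JRh.Sg_hom n _
      hPE := by
        have := congrArg (map ιA) he
        rwa [map_pow, map_add, RingHom.map_mul, map_expand, map_natCast, map_Sg] at this
      hPd := fun k => by
        have := congrArg (map ιA) (heder k)
        rwa [RingHom.map_mul, map_pow, map_add, RingHom.map_mul, map_pow, map_X, map_expand,
          ← pderiv_map, ← pderiv_map, map_Sg] at this
      γ0 := by rw [γ0, map_one]
      γs := fun j => by
        have := congrArg q (γs j)
        rwa [map_mul, map_mul, map_natCast, map_natCast] at this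
      γJ := fun j hj => by
        obtain ⟨y, hy⟩ := hγJ j hj
        rw [hy]
        exact Ideal.Quotient.eq_zero_iff_mem.2 (Ideal.mem_span_singleton.2 ⟨y, rfl⟩)
      γmul := fun i j => by
        have := congrArg q (γmul i j)
        rwa [map_mul, map_mul, map_natCast] at this }
  -- lift `h` to `O0`
  obtain ⟨h0, hh0⟩ : ∃ h0 : Poly n O0, map O0.subtype h0 = h := by
    refine ⟨∑ a ∈ h.support, monomial a ⟨coeff a h, hhO a⟩, ?_⟩
    rw [map_sum]
    conv_rhs => rw [h.as_sum]
    refine sum_congr rfl fun a _ => ?_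
    rw [map_monomial]
    rfl
  have hw0 : Wt a h0 := by
    intro c hc
    refine hh c ?_
    rw [← hh0, coeff_map]
    exact fun h1 => hc (hinj _ _ (by rw [h1, map_zero]))
  have hwq : Wt a (map q h0) := by
    intro c hc
    refine hw0 c fun h1 => hc ?_
    rw [coeff_map, h1, map_zero]
  have key := F1h.main hIOB F rfl rfl rfl (hehom.map _) hnp hJ a t ht hta hat (map q h0) hwq
  -- the element of `O0`
  let e0 : Poly n O0 := map (Int.castRingHom O0) e
  let x : O0 := ((FD.K a t : ℕ) : O0) * ∑ j ∈ range J, ((-1) ^ j * γ j) *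
    JS (psi p (h0 * Sg n O0 ^ (p * t - a) * e0 ^ j)) - (p : O0) ^ n * JS h0
  have hx : q x = 0 := by
    have e1 : q x = ((FD.K a t : ℕ) : O0 ⧸ Ideal.span {((p : ℕ) : O0) ^ J}) *
        ∑ j ∈ range J, ((-1) ^ j * q (γ j)) * JS (psi p (map q h0 * Sg n _ ^ (p * t - a) *
          (map ιA e) ^ j)) - (p : O0 ⧸ Ideal.span {((p : ℕ) : O0) ^ J}) ^ n * JS (map q h0) := by
      have he0 : map q e0 = map ιA e := by
        change map q (map (Int.castRingHom O0) e) = _
        rw [MvPolynomial.map_map]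
        exact congrArg (fun f => map f e) (Subsingleton.elim _ _)
      rw [map_sub, map_mul, map_mul, map_pow, map_natCast, map_natCast, map_sum, JS_map]
      congr 2
      refine Finset.sum_congr rfl fun j _ => ?_
      rw [map_mul, map_mul, map_pow, map_neg, map_one, ← JS_map, RHB.map_psi', RingHom.map_mul,
        RingHom.map_mul, map_pow, map_pow, he0, map_Sg]
    rw [e1, sub_eq_zero]
    exact key
  have hx' := Ideal.mem_span_singleton.1 (Ideal.Quotient.eq_zero_iff_mem.1 hx)
  obtain ⟨y, hy⟩ := hx'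
  refine ⟨y, y.2, ?_⟩
  have hyB : (O0.subtype x) = (p : B) ^ J * (y : B) := by
    rw [hy, map_mul, map_pow, map_natCast]
    rfl
  rw [← hyB]
  -- `Es` is the image of `e`
  have hpB : algebraMap ℚ B ((p : ℚ)⁻¹) * (p : B) = 1 := by
    have : ((p : ℕ) : B) = algebraMap ℚ B (p : ℚ) := by rw [map_natCast]
    rw [this, ← map_mul, inv_mul_cancel₀ (by exact_mod_cast hp.ne_zero), map_one]
  have hEe : Es = map (Int.castRingHom B) e := by
    have h1 := congrArg (map (Int.castRingHom B)) he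
    rw [map_pow, map_add, RingHom.map_mul, map_expand, map_natCast, map_Sg] at h1
    rw [h1, add_left_cancel_iff] at hEs
    have h2 := congrArg (fun f => C (algebraMap ℚ B ((p : ℚ)⁻¹)) * f) hEs
    simp only [← mul_assoc] at h2
    have h3 : (C (algebraMap ℚ B ((p : ℚ)⁻¹)) : Poly n B) * (p : Poly n B) = 1 := by
      have : (p : Poly n B) = C (p : B) := by rw [map_natCast]
      rw [this, ← C_mul, hpB, C_1]
    rw [h3, one_mul, one_mul] at h2
    exact h2.symm
  have hEs0 : map O0.subtype e0 = Es := by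
    change map O0.subtype (map (Int.castRingHom O0) e) = _
    rw [MvPolynomial.map_map, hEe]
    exact congrArg (fun f => map f e) (Subsingleton.elim _ _)
  obtain ⟨-, -, s3⟩ := hIOB.1 B n
  have hEshom : Es.IsHomogeneous p := by rw [hEe]; exact hehom.map _
  have hsx : O0.subtype x = ((FD.K a t : ℕ) : B) * ∑ j ∈ range J,
      ((-1) ^ j * algebraMap ℚ B (gq p j)) * JS (psi p (h * Sg n B ^ (p * t - a) * Es ^ j)) -
        (p : B) ^ n * JS h := by
    rw [map_sub, map_mul, map_mul, map_pow, hsub, hsub, map_sum, ← JS_map, hh0]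
    congr 2
    refine Finset.sum_congr rfl fun j _ => ?_
    rw [map_mul, map_mul, map_pow, map_neg, map_one, ← JS_map, RHB.map_psi', RingHom.map_mul,
      RingHom.map_mul, map_pow, map_pow, hEs0, map_Sg, hh0]
    congr 2
    exact (hγ j)
  rw [hsx, s3 a h hh, mul_sub, Finset.mul_sum, Finset.mul_sum]
  congr 1
  · refine Finset.sum_congr rfl fun j _ => ?_
    have w1 : Wt (a + (p * t - a)) (h * Sg n B ^ (p * t - a)) := by
      refine RHB.wt_mul hh ?_
      simpa using (JRh.Sg_hom n B).pow (p * t - a)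
    have w2 := RHB.wt_mul w1 (hEshom.pow j)
    have e5 : a + (p * t - a) + p * j = p * (t + j) := by
      rw [mul_add]; omega
    rw [e5] at w2
    rw [s3 (t + j) _ (wt_one hp.pos w2)]
    have c1 : ((FD.K a t : ℕ) : ℚ) * gq p j * ((t + j - 1).factorial : ℚ) =
        ((a - 1).factorial : ℚ) * ((t + j - 1).choose j : ℚ) * (p : ℚ) ^ j := by
      have d1 : ((a - 1).factorial : ℚ) = (FD.K a t : ℚ) * ((t - 1).factorial : ℚ) := by
        have := Nat.factorial_mul_descFactorial (show a - t ≤ a - 1 by omega)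
        have e6 : a - 1 - (a - t) = t - 1 := by omega
        rw [e6] at this
        rw [← this, FD.K]
        push_cast
        ring
      have d2 : ((t + j - 1).factorial : ℚ) = ((t + j - 1).choose j : ℚ) *
          (j.factorial : ℚ) * ((t - 1).factorial : ℚ) := by
        have := Nat.choose_mul_factorial_mul_factorial (show j ≤ t + j - 1 by omega)
        have e6 : t + j - 1 - j = t - 1 := by omega
        rw [e6] at this
        rw [← this]
        push_cast
        ring
      rw [d1, d2, gq]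
      have h2 : ((j.factorial : ℕ) : ℚ) ≠ 0 := Nat.cast_ne_zero.2 (Nat.factorial_ne_zero j)
      field_simp
    have c2 := congrArg (algebraMap ℚ B) c1
    rw [map_mul, map_mul, map_mul, map_mul, map_pow, map_natCast, map_natCast, map_natCast,
      map_natCast, map_natCast] at c2
    have c3 : (-(p : B)) ^ j = (-1) ^ j * (p : B) ^ j := by
      rw [← mul_pow, neg_one_mul]
    rw [c3]
    linear_combination (-(-1) ^ j * IoQ (psi p (h * Sg n B ^ (p * t - a) * Es ^ j))) * c2
  · ring

end Pool.CUBE
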