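import Pool.Agent.H41.CUBE.JStmts

/-!
# Cube project, block TAME J: module IOB
-/

set_option autoImplicit false

open Finset MvPolynomial Pool.CM

namespace Pool.CUBE

namespace IOBh

theorem prodfac {n : ℕ} (a : Fin (n + 1) →₀ ℕ) (i : Fin (n + 1)) :
    ∏ k, ((a + Finsupp.single i 1 : Fin (n + 1) →₀ ℕ) k).factorial =
      (a i + 1) * ∏ k, (a k).factorial := by
  classical
  rw [← Finset.mul_prod_erase univ _ (mem_univ i),
    ← Finset.mul_prod_erase univ (fun k => (a k).factorial) (mem_univ i)]
  have h1 : ((a + Finsupp.single i 1 : Fin (n + 1) →₀ ℕ) i).factorial =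
      (a i + 1) * (a i).factorial := by
    rw [Finsupp.add_apply, Finsupp.single_eq_same, Nat.factorial_succ]
  have h2 : ∏ k ∈ univ.erase i, ((a + Finsupp.single i 1 : Fin (n + 1) →₀ ℕ) k).factorial =
      ∏ k ∈ univ.erase i, (a k).factorial := by
    refine Finset.prod_congr rfl fun k hk => ?_
    rw [Finsupp.add_apply, Finsupp.single_eq_of_ne (Finset.ne_of_mem_erase hk), add_zero]
  rw [h1, h2, mul_assoc]

theorem deg_add {n : ℕ} (a : Fin (n + 1) →₀ ℕ) (i : Fin (n + 1)) :
    (a + Finsupp.single i 1).degree = a.degree + 1 := by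
  rw [map_add, Finsupp.degree_single]

theorem sum_deg {n : ℕ} (a : Fin (n + 1) →₀ ℕ) : ∑ i, (a i + 1) = a.degree + (n + 1) := by
  rw [Finset.sum_add_distrib, Finsupp.degree_eq_sum]
  simp

theorem X_mul {n : ℕ} {A : Type} [CommRing A] (i : Fin (n + 1)) (a : Fin (n + 1) →₀ ℕ) (r : A) :
    (X i : Poly n A) * monomial a r = monomial (a + Finsupp.single i 1) r := by
  rw [X, monomial_mul, one_mul, add_comm (Finsupp.single i 1) a]

theorem JS_mon {n : ℕ} {A : Type} [CommRing A] (a : Fin (n + 1) →₀ ℕ) (r : A) :
    JS (monomial a r : Poly n A) = r * ((∏ i, (a i).factorial : ℕ) : A) := by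
  rw [JS, linMon_monomial, smul_eq_mul]

theorem IoQ_mon {n : ℕ} {B : Type} [CommRing B] [Algebra ℚ B] (a : Fin (n + 1) →₀ ℕ) (r : B) :
    IoQ (monomial a r : Poly n B) = r * algebraMap ℚ B
      (((∏ i, (a i).factorial : ℕ) : ℚ) / ((a.degree + n).factorial : ℚ)) := by
  rw [IoQ, linMon_monomial, smul_eq_mul]

/-- induction for statements about polynomials of weight `N` -/
theorem wt_ind {n : ℕ} {A : Type} [CommRing A] {N : ℕ} {p : Poly n A → Prop} (h0 : p 0)
    (hadd : ∀ g h, p g → p h → p (g + h))
    (hm : ∀ a r, a.degree + (n + 1) = N → p (monomial a r)) (h : Poly n A) (hh : Wt N h) :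
    p h := by
  classical
  rw [h.as_sum]
  refine Finset.sum_induction _ p hadd h0 fun a ha => hm a _ (hh a ?_)
  exact mem_support_iff.1 ha

theorem facN (a b : ℕ) : ((a + 1 + b).factorial : ℚ) = ((a + (b + 1) : ℕ) : ℚ) *
    ((a + b).factorial : ℚ) := by
  have : a + 1 + b = (a + b) + 1 := by ring
  rw [this, Nat.factorial_succ]
  push_cast
  ring

end IOBh

open IOBh

theorem IOB_proof : IOBStmt := by
  refine ⟨fun B _ _ n => ⟨?_, ?_, ?_⟩, fun A _ n => ⟨?_, ?_, ?_⟩⟩
  · intro h
    induction h using MvPolynomial.induction_on' with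
    | add g1 g2 h1 h2 => rw [mul_add, map_add, h1, h2, map_add]
    | monomial a r =>
      rw [Sg, Finset.sum_mul, map_sum]
      have h1 : ∀ i : Fin (n + 1), IoQ ((X i : Poly n B) * monomial a r) =
          r * algebraMap ℚ B (((a i + 1 : ℕ) : ℚ) * (((∏ k, (a k).factorial : ℕ) : ℚ) /
            ((a.degree + 1 + n).factorial : ℚ))) := by
        intro i
        rw [X_mul, IoQ_mon, prodfac, deg_add]
        congr 2
        push_cast
        ring
      rw [Finset.sum_congr rfl fun i _ => h1 i, ← Finset.mul_sum, ← map_sum, ← Finset.sum_mul,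
        ← Nat.cast_sum, sum_deg, IoQ_mon]
      congr 2
      rw [facN]
      have h2 : ((a.degree + (n + 1) : ℕ) : ℚ) ≠ 0 := by positivity
      have h3 : ((a.degree + n).factorial : ℚ) ≠ 0 := by positivity
      field_simp
  · intro i N h hh
    refine wt_ind (p := fun h => IoQ (ez i h + h) = (N : B) * IoQ (X i * h)) ?_ ?_ ?_ h hh
    · simp
    · intro g h hg hh
      have e1 : ez i (g + h) + (g + h) = (ez i g + g) + (ez i h + h) := by
        rw [map_add]; ring
      rw [e1, map_add, hg, hh, mul_add (X i), map_add, mul_add]
    · intro a r ha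
      rw [ez_monomial, ← map_add, X_mul, IoQ_mon, IoQ_mon, prodfac, deg_add, facN, ha]
      have e1 : (a i : B) * r + r = algebraMap ℚ B ((a i + 1 : ℕ) : ℚ) * r := by
        rw [map_natCast]; push_cast; ring
      have e2 : (N : B) = algebraMap ℚ B (N : ℚ) := by rw [map_natCast]
      rw [e1, e2, mul_comm _ r, mul_assoc, ← map_mul, mul_left_comm, ← map_mul]
      congr 2
      have h2 : (N : ℚ) ≠ 0 := by
        rw [← ha]; positivity
      have h3 : ((a.degree + n).factorial : ℚ) ≠ 0 := by positivity
      push_cast
      field_simp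
  · intro N h hh
    refine wt_ind (p := fun h => JS h = ((N - 1).factorial : B) * IoQ h) ?_ ?_ ?_ h hh
    · simp
    · intro g h hg hh
      rw [map_add, hg, hh, map_add, mul_add]
    · intro a r ha
      rw [JS_mon, IoQ_mon]
      have e1 : N - 1 = a.degree + n := by omega
      have e2 : ((a.degree + n).factorial : B) = algebraMap ℚ B ((a.degree + n).factorial : ℚ) := by
        rw [map_natCast]
      have e3 : ((∏ i, (a i).factorial : ℕ) : B) =
          algebraMap ℚ B ((∏ i, (a i).factorial : ℕ) : ℚ) := by
        rw [map_natCast]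
      rw [e1, e2, e3, mul_left_comm, ← map_mul]
      congr 2
      have h3 : ((a.degree + n).factorial : ℚ) ≠ 0 := by positivity
      field_simp
  · intro i h
    rw [Dop_apply]
    have hS : ez i (Sg n A) = X i := by
      rw [Sg, map_sum]
      have h1 : ∀ k : Fin (n + 1), ez (A := A) i (X k) = if k = i then X i else 0 := by
        intro k
        rw [ez, Derivation.smul_apply, pderiv_X, smul_eq_mul]
        by_cases hk : k = i
        · subst hk
          simp
        · rw [if_neg hk, Pi.single_eq_of_ne (fun h => hk h), mul_zero]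
      rw [Finset.sum_congr rfl fun k _ => h1 k, Finset.sum_ite_eq' univ i, if_pos (mem_univ i)]
    rw [hS]
    induction h using MvPolynomial.induction_on' with
    | add g1 g2 h1 h2 =>
      have e1 : ez i (g1 + g2) + (g1 + g2) - X i * (g1 + g2) =
          (ez i g1 + g1 - X i * g1) + (ez i g2 + g2 - X i * g2) := by
        rw [map_add]; ring
      rw [e1, map_add, h1, h2, add_zero]
    | monomial a r =>
      rw [ez_monomial, ← map_add, X_mul, map_sub, JS_mon, JS_mon, prodfac]
      push_cast
      ring
  · intro N h hh
    refine wt_ind (p := fun h => JS (Sg n A * h) = (N : A) * JS h) ?_ ?_ ?_ h hh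
    · simp
    · intro g h hg hh
      rw [mul_add, map_add, hg, hh, map_add, mul_add]
    · intro a r ha
      rw [Sg, Finset.sum_mul, map_sum]
      have h1 : ∀ i : Fin (n + 1), JS ((X i : Poly n A) * monomial a r) =
          ((a i + 1 : ℕ) : A) * JS (monomial a r : Poly n A) := by
        intro i
        rw [X_mul, JS_mon, JS_mon, prodfac]
        push_cast
        ring
      rw [Finset.sum_congr rfl fun i _ => h1 i, ← Finset.sum_mul, ← Nat.cast_sum, sum_deg, ha]
  · intro h
    have hS : ∀ i : Fin (n + 1), ez (A := A) i (Sg n A) = X i := by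
      intro i
      rw [Sg, map_sum]
      have h1 : ∀ k : Fin (n + 1), ez (A := A) i (X k) = if k = i then X i else 0 := by
        intro k
        rw [ez, Derivation.smul_apply, pderiv_X, smul_eq_mul]
        by_cases hk : k = i
        · subst hk
          simp
        · rw [if_neg hk, Pi.single_eq_of_ne (fun h => hk h), mul_zero]
      rw [Finset.sum_congr rfl fun k _ => h1 k, Finset.sum_ite_eq' univ i, if_pos (mem_univ i)]
    have hC : ∀ c : A, (C c : Poly n A) = monomial 0 c := fun c => rfl
    -- monomials
    have key : ∀ (d : ℕ) (a : Fin (n + 1) →₀ ℕ) (r : A), a.degree = d →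
        (monomial a r : Poly n A) - C (JS (monomial a r)) ∈ Rel (Sg n A) := by
      intro d
      induction d with
      | zero =>
        intro a r ha
        have ha0 : a = 0 := by
          rwa [Finsupp.degree_eq_zero_iff] at ha
        subst ha0
        rw [JS_mon, hC]
        simp
      | succ d ih =>
        intro a r ha
        obtain ⟨i, hi⟩ : ∃ i, a i ≠ 0 := by
          by_contra hcon
          push Not at hcon
          have : a = 0 := by
            ext i
            simpa using hcon i
          rw [this] at ha
          simp at ha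
        obtain ⟨b, rfl⟩ : ∃ b : Fin (n + 1) →₀ ℕ, a = b + Finsupp.single i 1 := by
          refine ⟨a - Finsupp.single i 1, ?_⟩
          ext k
          by_cases hk : k = i
          · subst hk
            simp
            omega
          · simp [Finsupp.single_eq_of_ne hk]
        have hb : b.degree = d := by
          rw [deg_add] at ha
          omega
        -- z_i z^b = (b_i + 1) z^b - Dop z^b
        have h1 : (monomial (b + Finsupp.single i 1) r : Poly n A) =
            monomial b (((b i + 1 : ℕ) : A) * r) - Dop (Sg n A) i (monomial b r) := by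
          rw [Dop_apply, hS, ez_monomial, X_mul, ← map_add]
          have : (b i : A) * r + r = ((b i + 1 : ℕ) : A) * r := by push_cast; ring
          rw [this]
          ring
        have h2 : JS (monomial (b + Finsupp.single i 1) r : Poly n A) =
            JS (monomial b (((b i + 1 : ℕ) : A) * r) : Poly n A) := by
          rw [JS_mon, JS_mon, prodfac]
          push_cast
          ring
        rw [h2, h1, sub_right_comm]
        exact Submodule.sub_mem _ (ih b _ hb)
          (Submodule.mem_iSup_of_mem i (LinearMap.mem_range_self _ _))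
    induction h using MvPolynomial.induction_on' with
    | add g1 g2 h1 h2 =>
      have : g1 + g2 - C (JS (g1 + g2)) = (g1 - C (JS g1)) + (g2 - C (JS g2)) := by
        rw [map_add, map_add]; ring
      rw [this]
      exact Submodule.add_mem _ h1 h2
    | monomial a r => exact key _ a r rfl

end Pool.CUBE
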