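import Pool.Agent.H33.CUBE.JR

/-!
# Cube project, block TAME J: module JN (`J` and the derivations)
-/

set_option autoImplicit false

open Finset MvPolynomial Pool.CM

namespace Pool.CUBE

namespace JNh

open JRh

theorem cD_C {σ A : Type} [CommRing A] (δ : Derivation ℤ A A) (c : A) :
    cD δ (C c : MvPolynomial σ A) = C (δ c) := cD_monomial δ 0 c

theorem coeff_cD {σ A : Type} [CommRing A] (δ : Derivation ℤ A A) (g : MvPolynomial σ A)
    (a : σ →₀ ℕ) : coeff a (cD δ g) = δ (coeff a g) := by
  classical
  induction g using MvPolynomial.induction_on' with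
  | add g1 g2 h1 h2 => rw [map_add, coeff_add, coeff_add, h1, h2, map_add]
  | monomial b s =>
    rw [cD_monomial, coeff_monomial, coeff_monomial]
    split_ifs with h
    · rfl
    · rw [map_zero]

theorem cD_Sg {n : ℕ} {A : Type} [CommRing A] (δ : Derivation ℤ A A) : cD δ (Sg n A) = 0 := by
  rw [Sg, map_sum]
  refine Finset.sum_eq_zero fun i _ => ?_
  have : (X i : Poly n A) = monomial (Finsupp.single i 1) 1 := rfl
  rw [this, cD_monomial, Derivation.map_one_eq_zero, monomial_zero]

theorem cD_SgD {n : ℕ} {A : Type} [CommRing A] (δ : Derivation ℤ A A) (D : ℕ) :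
    cD δ (Sg n A ^ D) = 0 := by
  rw [Derivation.leibniz_pow, cD_Sg, smul_zero, smul_zero]

/-- Leibniz rule, instance free -/
theorem der_mul {σ A : Type} [CommRing A] (δ : Derivation ℤ A A) (f g : MvPolynomial σ A) :
    cD δ (f * g) = f * cD δ g + g * cD δ f := by
  rw [Derivation.leibniz, smul_eq_mul, smul_eq_mul]

theorem der_mul' {A : Type} [CommRing A] (δ : Derivation ℤ A A) (f g : A) :
    δ (f * g) = f * δ g + g * δ f := by
  rw [Derivation.leibniz, smul_eq_mul, smul_eq_mul]

theorem cD_hom {n : ℕ} {A : Type} [CommRing A] (δ : Derivation ℤ A A) {D : ℕ} {P : Poly n A}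
    (hP : P.IsHomogeneous D) : (cD δ P).IsHomogeneous D := by
  intro a ha
  rw [coeff_cD] at ha
  refine hP fun h0 => ha ?_
  rw [h0, map_zero]

section
variable {n : ℕ} {B : Type} [CommRing B] [Algebra ℚ B]

theorem der_rat (δ : Derivation ℤ B B) (q : ℚ) : δ (algebraMap ℚ B q) = 0 := by
  have h1 : algebraMap ℚ B q * (q.den : B) = (q.num : B) := by
    have : ((q.den : ℕ) : B) = algebraMap ℚ B (q.den : ℚ) := by rw [map_natCast]
    rw [this, ← map_mul, Rat.mul_den_eq_num, map_intCast]
  have h2 := congrArg δ h1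
  rw [Derivation.leibniz, Derivation.map_natCast, smul_zero, zero_add, Derivation.map_intCast,
    smul_eq_mul] at h2
  have h3 : (algebraMap ℚ B ((q.den : ℚ)⁻¹)) * ((q.den : B) * δ (algebraMap ℚ B q)) = 0 := by
    rw [h2, mul_zero]
  have h4 : algebraMap ℚ B ((q.den : ℚ)⁻¹) * (q.den : B) = 1 := by
    have : ((q.den : ℕ) : B) = algebraMap ℚ B (q.den : ℚ) := by rw [map_natCast]
    rw [this, ← map_mul, inv_mul_cancel₀ (by exact_mod_cast q.den_nz), map_one]
  rwa [← mul_assoc, h4, one_mul] at h3

theorem IoQ_cD (δ : Derivation ℤ B B) (h : Poly n B) : IoQ (cD δ h) = δ (IoQ h) := by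
  induction h using MvPolynomial.induction_on' with
  | add g1 g2 h1 h2 => rw [map_add, map_add, h1, h2, map_add, map_add]
  | monomial a r =>
    rw [cD_monomial, IoQ, linMon_monomial, linMon_monomial, smul_eq_mul, smul_eq_mul,
      Derivation.leibniz, der_rat, smul_zero, zero_add, smul_eq_mul, mul_comm]

omit [Algebra ℚ B] in
theorem wt_mono {D L : ℕ} {a : Fin (n + 1) →₀ ℕ} (h : a.degree + (n + 1) = D * L) :
    Wt (D * L) (monomial a (1 : B)) := by
  classical
  intro b hb
  rw [coeff_monomial] at hb
  split_ifs at hb with hab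
  · rw [← hab]; exact h
  · exact absurd rfl hb

omit [Algebra ℚ B] in
theorem nw_mono {D : ℕ} {a : Fin (n + 1) →₀ ℕ} (h : ¬ D ∣ a.degree + (n + 1)) :
    NW D (monomial a (1 : B)) := by
  classical
  intro b hb
  rw [coeff_monomial] at hb
  split_ifs at hb with hab
  · rw [← hab]; exact h
  · exact absurd rfl hb

/-- first derivation -/
theorem key1 (hIOB : IOBStmt) {D : ℕ} (hD : 0 < D) (X1 : Poly n B)
    (a : Fin (n + 1) →₀ ℕ) (k : ℤ) :
    (if 0 ≤ k then aN D X1 k.toNat (Sg n B ^ D * monomial a 1) else 0) =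
      (k : B) * (if 1 ≤ k then aN D X1 (k - 1).toNat (monomial a 1) else 0) := by
  rcases lt_or_ge k 0 with hk | hk
  · rw [if_neg (by omega), if_neg (by omega), mul_zero]
  obtain ⟨N, rfl⟩ := Int.eq_ofNat_of_zero_le hk
  rw [if_pos hk]
  by_cases hd : D ∣ a.degree + (n + 1)
  · obtain ⟨L, hL⟩ := hd
    have hL0 : 0 < L := by
      rcases Nat.eq_zero_or_pos L with h | h
      · rw [h, mul_zero] at hL; omega
      · exact h
    have w1 : Wt (D * (L + 1)) (Sg n B ^ D * monomial a 1) := by
      have e0 : D * L + D = D * (L + 1) := by ring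
      rw [← e0]; exact wt_mul (SgD_hom n B D) (wt_mono hL)
    have e1 : ((N : ℕ) : ℤ).toNat = N := Int.toNat_natCast N
    rw [e1, aN_wt hD X1 N (L + 1) w1]
    rcases Nat.eq_zero_or_pos N with hN | hN
    · subst hN
      rw [if_neg (by omega)]
      push_cast
      rw [zero_mul]
    · obtain ⟨M, rfl⟩ : ∃ M, N = M + 1 := ⟨N - 1, by omega⟩
      have e2 : (((M + 1 : ℕ) : ℤ) - 1).toNat = M := by push_cast; simp
      rw [if_pos (show (1 : ℤ) ≤ ((M + 1 : ℕ) : ℤ) by omega), e2, aN_wt hD X1 M L (wt_mono hL)]
      by_cases hLM : L ≤ M + 1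
      · rw [if_pos (by omega), if_pos hLM, mul_assoc (Sg n B ^ D), IoQ_Sg_pow hIOB]
        have e3 : M + 1 + 1 - (L + 1) = M + 1 - L := by omega
        have e4 : (((M + 1 : ℕ) : ℤ) : B) = algebraMap ℚ B ((M + 1 : ℕ) : ℚ) := by
          rw [map_natCast, Int.cast_natCast]
        rw [e3, e4, ← mul_assoc, ← map_mul]
        congr 2
        rw [Nat.factorial_succ]
        push_cast
        ring
      · rw [if_neg (by omega), if_neg hLM, mul_zero]
  · have w1 : NW D (Sg n B ^ D * monomial a (1 : B)) := nw_mul (SgD_hom n B D) (nw_mono hd)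
    rw [aN_nw X1 _ w1]
    rw [aN_nw X1 _ (nw_mono hd), ite_self, mul_zero]

/-- second derivation -/
theorem key2 {D : ℕ} (hD : 0 < D) {X1 : Poly n B} (hX : X1.IsHomogeneous D)
    (δ : Derivation ℤ B B) (a : Fin (n + 1) →₀ ℕ) (N : ℕ) :
    aN D X1 N (cD δ X1 * monomial a 1) = δ (aN D X1 N (monomial a 1)) := by
  by_cases hd : D ∣ a.degree + (n + 1)
  · obtain ⟨L, hL⟩ := hd
    have w1 : Wt (D * (L + 1)) (cD δ X1 * monomial a 1) := by
      have e0 : D * L + D = D * (L + 1) := by ring
      rw [← e0]; exact wt_mul (cD_hom δ hX) (wt_mono hL)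
    rw [aN_wt hD X1 N (L + 1) w1, aN_wt hD X1 N L (wt_mono hL)]
    by_cases hLN : L ≤ N + 1
    · rw [if_pos hLN, Derivation.leibniz, der_rat, smul_zero, add_zero, smul_eq_mul, ← IoQ_cD]
      have hm1 : cD δ (monomial a (1 : B)) = 0 := by
        rw [cD_monomial, Derivation.map_one_eq_zero, monomial_zero]
      rw [Derivation.leibniz, hm1, smul_zero, add_zero, Derivation.leibniz_pow, smul_eq_mul]
      by_cases hLN' : L + 1 ≤ N + 1
      · rw [if_pos hLN']
        obtain ⟨m, hm⟩ : ∃ m, N + 1 - L = m + 1 := ⟨N - L, by omega⟩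
        have hm' : N + 1 - (L + 1) = m := by omega
        rw [hm, hm', Nat.add_sub_cancel]
        have e1 : (monomial a (1 : B)) * ((m + 1) • X1 ^ m • cD δ X1) =
            ((m + 1 : ℕ) : Poly n B) * (cD δ X1 * monomial a 1 * X1 ^ m) := by
          rw [nsmul_eq_mul, smul_eq_mul]
          ring
        rw [e1, IoQ_nat, ← mul_assoc]
        have e2 : ((m + 1 : ℕ) : B) = algebraMap ℚ B ((m + 1 : ℕ) : ℚ) := by
          rw [map_natCast]
        rw [e2, ← map_mul, fac_rel]
      · rw [if_neg hLN']
        have : N + 1 - L = 0 := by omega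
        rw [this, zero_smul, mul_zero, map_zero, mul_zero]
    · rw [if_neg hLN, if_neg (by omega), map_zero]
  · have w1 : NW D (cD δ X1 * monomial a (1 : B)) := nw_mul (cD_hom δ hX) (nw_mono hd)
    rw [aN_nw X1 _ w1, aN_nw X1 _ (nw_mono hd), map_zero]

end

end JNh

open JRh JNh

theorem JN_proof (hIOB : IOBStmt) : JNStmt := by
  intro B _ _ n D hD X1 hX
  refine ⟨fun dT hdT g => ?_, fun δ d hd g => ?_⟩
  · -- `dT` kills constants and `dT T⁻¹ = - T⁻¹`
    have hC : ∀ c : B, dT (HahnSeries.C c) = 0 := by
      intro c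
      ext k
      rw [hdT, HahnSeries.C_apply, HahnSeries.coeff_single, HahnSeries.coeff_zero]
      split_ifs with h
      · rw [h]; push_cast; rw [zero_mul]
      · rw [mul_zero]
    have hs : dT (HahnSeries.single (-1) 1) = -HahnSeries.single (-1) 1 := by
      ext k
      rw [hdT, HahnSeries.coeff_neg, HahnSeries.coeff_single]
      split_ifs with h
      · rw [h]; push_cast; ring
      · rw [mul_zero, neg_zero]
    have hP : cD dT (PL D X1) = -(C (HahnSeries.single (-1) 1) *
        Sg n (LaurentSeries B) ^ D) := by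
      rw [PL, map_sub, der_mul, cD_C, hs, cD_SgD, mul_zero, zero_add]
      have h0 : cD dT (map (HahnSeries.C : B →+* LaurentSeries B) X1) = 0 := by
        ext a : 1
        rw [coeff_cD, coeff_map, hC, coeff_zero]
      rw [h0, sub_zero, map_neg]
      ring
    induction g using MvPolynomial.induction_on' with
    | add g1 g2 h1 h2 => rw [map_add, map_add, h1, h2, map_add, map_add]
    | monomial a r =>
      rw [nab0_apply, cD_monomial, hP, neg_mul, sub_neg_eq_add, map_add, JL_monomial, JL_monomial,
        der_mul']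
      have e1 : C (HahnSeries.single (-1) 1) * Sg n (LaurentSeries B) ^ D * monomial a r =
          r • (C (HahnSeries.single (-1) 1) * map (HahnSeries.C : B →+* LaurentSeries B)
            (Sg n B ^ D * monomial a 1)) := by
        have e2 : map (HahnSeries.C : B →+* LaurentSeries B) (Sg n B ^ D * monomial a 1) =
            Sg n (LaurentSeries B) ^ D * monomial a 1 := by
          rw [map_mul, map_pow, map_monomial, map_one, Sg, Sg, map_sum]
          simp only [map_X]
        rw [e2]
        have e3 : (monomial a r : Poly n (LaurentSeries B)) = r • monomial a 1 := by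
          rw [smul_monomial, smul_eq_mul, mul_one]
        rw [e3, mul_smul_comm, mul_assoc]
      rw [e1, map_smul, smul_eq_mul, mul_comm (dT r), add_comm]
      congr 2
      ext k
      rw [JL_single_map, hdT, jL_coeff, key1 hIOB hD]
  · have hC : ∀ c : B, d (HahnSeries.C c) = HahnSeries.C (δ c) := by
      intro c
      ext k
      rw [hd, HahnSeries.C_apply, HahnSeries.C_apply, HahnSeries.coeff_single,
        HahnSeries.coeff_single]
      split_ifs with h
      · rfl
      · rw [map_zero]
    have hs : d (HahnSeries.single (-1) 1) = 0 := by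
      ext k
      rw [hd, HahnSeries.coeff_single, HahnSeries.coeff_zero]
      split_ifs with h
      · rw [Derivation.map_one_eq_zero]
      · rw [map_zero]
    have hP : cD d (PL D X1) = -map (HahnSeries.C : B →+* LaurentSeries B) (cD δ X1) := by
      rw [PL, map_sub, der_mul, cD_C, hs, cD_SgD, mul_zero, zero_add, map_zero, mul_zero,
        zero_sub]
      congr 1
      ext a : 1
      rw [coeff_cD, coeff_map, coeff_map, coeff_cD, hC]
    induction g using MvPolynomial.induction_on' with
    | add g1 g2 h1 h2 => rw [map_add, map_add, h1, h2, map_add, map_add]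
    | monomial a r =>
      rw [nab0_apply, cD_monomial, hP, neg_mul, sub_neg_eq_add, map_add, JL_monomial, JL_monomial,
        der_mul']
      have e1 : map (HahnSeries.C : B →+* LaurentSeries B) (cD δ X1) * monomial a r =
          r • (map (HahnSeries.C : B →+* LaurentSeries B) (cD δ X1 * monomial a 1)) := by
        have e3 : (monomial a r : Poly n (LaurentSeries B)) = r • monomial a 1 := by
          rw [smul_monomial, smul_eq_mul, mul_one]
        rw [map_mul, map_monomial, map_one, e3, mul_smul_comm]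
      rw [e1, map_smul, smul_eq_mul, mul_comm (d r), add_comm]
      congr 2
      ext k
      rw [JL_map, hd, jL_coeff]
      split_ifs with hk
      · exact key2 hD hX δ a _
      · rw [map_zero]

end Pool.CUBE
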