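import Pool.Agent.H41.CUBE.TAll
import Pool.Agent.H41.CUBE.IOB
import Pool.Agent.H41.CUBE.JN
import Pool.Agent.H41.CUBE.F1
import Pool.Agent.H33.CUBE.JR
import Pool.Agent.H33.CUBE.JE
import Pool.Agent.H50.CUBE.WF
import Pool.Agent.H98.CUBE.F2
import Pool.Agent.H76.CUBE.JFS
import Pool.Agent.H87.CUBE.JT0
import Pool.Agent.H76.CUBE.JTN
import Pool.Agent.H13.CUBE.JT1
import Pool.Agent.H79.CUBE.BC

/-!
# Cube project, block TAME, part J: the theorems without hypotheses (all but `JF`)
-/

set_option autoImplicit false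

namespace Pool.CUBE.JAll

theorem iob : IOBStmt := IOB_proof
theorem jr : JRStmt := JR_proof iob
theorem jn : JNStmt := JN_proof iob
theorem je : JEStmt := JE_proof iob jr
theorem f1 : F1Stmt := F1_proof iob
theorem wf : WFStmt := WF_proof iob
theorem f2 : F2Stmt := F2_proof wf
theorem jt0 : JT0Stmt := JT0_proof jr je TAll.epw
theorem jtn : JTNStmt := JTN_proof jn jt0
theorem bc : BCStmt := BC_proof TAll.epw
theorem jfs_of (hJF : JFStmt) : JFSStmt := JFS_proof hJF
theorem jt1_of (hJF : JFStmt) : JT1Stmt := JT1_proof hJF jt0 jr TAll.cpx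

end Pool.CUBE.JAll
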