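import Pool.Agent.H41.CUBE.JDefs
import Pool.Agent.H41.CUBE.TStmts
import Pool.Agent.H91.CUBE.FunLim

/-!
# Cube project (MP_47888e_al), block TAME, part J: the statements of the modules (board `cubj`)
-/

set_option autoImplicit false

open Finset MvPolynomial Pool.CM

namespace Pool.CUBE

/-- derivations over `ℤ` -/
abbrev DerZ (R : Type) [CommRing R] : Type := Derivation ℤ R R

/-! ### the functionals `IoQ`, `JS`, `JL` -/

/-- basic identities for `IoQ` and `JS` -/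
def IOBStmt : Prop :=
  (∀ (B : Type) [CommRing B] [Algebra ℚ B] (n : ℕ),
    (∀ h : Poly n B, IoQ (Sg n B * h) = IoQ h) ∧
    (∀ (i : Fin (n + 1)) (N : ℕ) (h : Poly n B), Wt N h →
      IoQ (ez i h + h) = (N : B) * IoQ (X i * h)) ∧
    (∀ (N : ℕ) (h : Poly n B), Wt N h → JS h = ((N - 1).factorial : B) * IoQ h)) ∧
  (∀ (A : Type) [CommRing A] (n : ℕ),
    (∀ (i : Fin (n + 1)) (h : Poly n A), JS (Dop (Sg n A) i h) = 0) ∧
    (∀ (N : ℕ) (h : Poly n A), Wt N h → JS (Sg n A * h) = (N : A) * JS h) ∧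
    (∀ h : Poly n A, h - C (JS h) ∈ Rel (Sg n A)))

/-- `J` kills the relations -/
def JRStmt : Prop := ∀ (B : Type) [CommRing B] [Algebra ℚ B] (n D : ℕ), 0 < D →
  ∀ X1 : Poly n B, X1.IsHomogeneous D →
    (∀ i g, JL D X1 (Dop (PL D X1) i g) = 0) ∧
    (∀ (φ : B →+* B) (p : ℕ) (hp : 0 < p) i g,
      JLp D X1 φ p hp (Dop (map (FUN.phiL φ p hp) (PL D X1)) i g) = 0)

/-- `J` and derivations -/
def JNStmt : Prop := ∀ (B : Type) [CommRing B] [Algebra ℚ B] (n D : ℕ), 0 < D →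
  ∀ X1 : Poly n B, X1.IsHomogeneous D →
    (∀ dT : DerZ (LaurentSeries B),
      (∀ f k, (dT f).coeff k = (k : B) * f.coeff k) →
      ∀ g, JL D X1 (nab0 dT (PL D X1) g) = dT (JL D X1 g)) ∧
    (∀ (δ : DerZ B) (d : DerZ (LaurentSeries B)),
      (∀ f k, (d f).coeff k = δ (f.coeff k)) →
      ∀ g, JL D X1 (nab0 d (PL D X1) g) = d (JL D X1 g))

/-- `J(e) = 1` -/
def JEStmt : Prop := ∀ (B : Type) [CommRing B] [Algebra ℚ B] (n D : ℕ), 0 < D →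
  ∀ X1 : Poly n B, X1.IsHomogeneous D → JL D X1 (eP D n (PL D X1)) = 1

/-! ### Frobenius -/

/-- The Frobenius for `P = Σ`, `D = 1` (T.6 (f1)): uses `FD` for `Σ` over `O₀ / p ^ J`. -/
def F1Stmt : Prop := ∀ (B : Type) [CommRing B] [Algebra ℚ B] (O0 : Subring B) (p : ℕ),
  p.Prime → (∀ m : ℕ, ¬ p ∣ m → algebraMap ℚ B ((m : ℚ)⁻¹) ∈ O0) →
  ∀ n J : ℕ, 1 ≤ J → J + 2 ≤ p → n + 1 ≤ p →
  ∀ Es : Poly n B, Sg n B ^ p = expand p (Sg n B) + (p : Poly n B) * Es →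
  ∀ a t : ℕ, 1 ≤ t → t ≤ a → a ≤ p * t →
  ∀ h : Poly n B, Wt a h → (∀ c, coeff c h ∈ O0) →
  ∃ y ∈ O0, ((a - 1).factorial : B) * (∑ j ∈ range J, ((t + j - 1).choose j : B) *
      (-(p : B)) ^ j * IoQ (psi p (h * Sg n B ^ (p * t - a) * Es ^ j)) -
      (p : B) ^ n * IoQ h) = (p : B) ^ J * y

/-- the functional `WF` kills the multiples of `1 - Σ(z ^ p) y` of small degree -/
def WFStmt : Prop := ∀ (A : Type) [CommRing A] (n p : ℕ), 2 ≤ p →
  (∀ m : ℕ, 1 ≤ m → m < p → IsUnit (m : A)) → ∀ w : Polynomial (Poly n A),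
  w.natDegree < p →
  w ∈ Ideal.span {(1 - Polynomial.C (expand p (Sg n A)) * Polynomial.X :
    Polynomial (Poly n A))} → WF p w = 0

/-- The two expansions of `g / P ^ m`, `P = Σ^D - Xa` (T.6 (f2)). -/
def F2Stmt : Prop := ∀ (A : Type) [CommRing A] (n D p J L L' : ℕ), 0 < D → 2 ≤ p →
  (p : A) ^ J = 0 → (∀ m : ℕ, 1 ≤ m → m < p → IsUnit (m : A)) →
  ∀ Xa Xb E Es : Poly n A, Xa.IsHomogeneous D → Xb.IsHomogeneous D →
  Xa ^ L = 0 → Xb ^ L' = 0 → E.IsHomogeneous (p * D) → Es.IsHomogeneous p →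
  (Sg n A ^ D - Xa) ^ p = expand p (Sg n A ^ D - Xb) + (p : Poly n A) * E →
  Sg n A ^ p = expand p (Sg n A) + (p : Poly n A) * Es →
  ∀ m t : ℕ, 1 ≤ m → 1 ≤ t → m ≤ p * t → D * (t + J + L') < p →
  ∀ tl : ℕ → ℕ, (∀ l < L, 1 ≤ tl l ∧ D * (m + l) ≤ p * tl l ∧ tl l + J < p) →
  ∀ g : Poly n A, Wt (D * m) g →
    ∑ j ∈ range J, ∑ l ∈ range L', ((t + j - 1).choose j : A) * (-(p : A)) ^ j *
        ((t + j + l - 1).choose l : A) *
        IoA (D * (t + j + l)) (psi p (g * (Sg n A ^ D - Xa) ^ (p * t - m) * E ^ j) * Xb ^ l) =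
      ∑ l ∈ range L, ((m + l - 1).choose l : A) * ∑ j ∈ range J,
        ((tl l + j - 1).choose j : A) * (-(p : A)) ^ j *
        IoA (tl l + j) (psi p (g * Xa ^ l * Sg n A ^ (p * tl l - D * (m + l)) * Es ^ j))

/-- FROBENIUS COMPATIBILITY of `J`, without loss (T.6 (f)). -/
def JFStmt : Prop := ∀ n D J C : ℕ, 0 < D → 1 ≤ J → ∃ p0 : ℕ,
  ∀ (B : Type) [CommRing B] [Algebra ℚ B] (O0 : Subring B) (φ : B →+* B) (p : ℕ)
    (hp : p.Prime), p0 ≤ p → (∀ m : ℕ, ¬ p ∣ m → algebraMap ℚ B ((m : ℚ)⁻¹) ∈ O0) →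
  (∀ x ∈ O0, φ x ∈ O0) → (∀ x ∈ O0, ∃ y ∈ O0, φ x = x ^ p + p * y) →
  ∀ X1 : Poly n B, X1.IsHomogeneous D → (∀ a, coeff a X1 ∈ O0) →
  ∀ γ : ℕ → LaurentSeries B, (∀ j, (j.factorial : LaurentSeries B) * γ j = p ^ j) →
  ∀ EL : Poly n (LaurentSeries B), PL D X1 ^ p =
    expand p (map (FUN.phiL φ p hp.pos) (PL D X1)) + (p : Poly n (LaurentSeries B)) * EL →
  ∀ (m : ℕ) (a : Fin (n + 1) →₀ ℕ), 1 ≤ m → m ≤ n + 1 → a.degree + (n + 1) = D * m →
  ∀ k : ℤ, k ≤ C * p → ∃ y ∈ O0,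
    (JLp D X1 φ p hp.pos (rho0 p D J γ (PL D X1) EL (monomial a 1)) -
      (p : LaurentSeries B) ^ n * JL D X1 (monomial a 1)).coeff k = (p : B) ^ J * y

/-- the same in polynomial form (for the block JJ): `ρ` is computed over `B[s]` -/
def JFSStmt : Prop := ∀ n D J C : ℕ, 0 < D → 1 ≤ J → ∃ p0 : ℕ,
  ∀ (B : Type) [CommRing B] [Algebra ℚ B] (O0 : Subring B) (φ : B →+* B) (p : ℕ)
    (_ : p.Prime), p0 ≤ p → (∀ m : ℕ, ¬ p ∣ m → algebraMap ℚ B ((m : ℚ)⁻¹) ∈ O0) →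
  (∀ x ∈ O0, φ x ∈ O0) → (∀ x ∈ O0, ∃ y ∈ O0, φ x = x ^ p + p * y) →
  ∀ X1 : Poly n B, X1.IsHomogeneous D → (∀ a, coeff a X1 ∈ O0) →
  ∀ γ : ℕ → Polynomial B, (∀ j, (j.factorial : Polynomial B) * γ j = p ^ j) →
  ∀ P EL : Poly n (Polynomial B), P = MvPolynomial.C Polynomial.X * Sg n (Polynomial B) ^ D -
      map Polynomial.C X1 →
    P ^ p = expand p (map ((Polynomial.expand B p).toRingHom.comp
      (Polynomial.mapRingHom φ)) P) + (p : Poly n (Polynomial B)) * EL →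
  ∀ (m : ℕ) (a : Fin (n + 1) →₀ ℕ), 1 ≤ m → m ≤ n + 1 → a.degree + (n + 1) = D * m →
  ∀ N : ℕ, N ≤ C * p → ∃ y ∈ O0,
    ∑ b ∈ (rho0 p D J γ P EL (monomial a 1)).support,
      ∑ k ∈ (coeff b (rho0 p D J γ P EL (monomial a 1))).support,
        (coeff b (rho0 p D J γ P EL (monomial a 1))).coeff k *
          (if p ∣ N + 1 + k then φ (aN D X1 ((N + 1 + k) / p - 1) (monomial b 1)) else 0) -
      (p : B) ^ n * aN D X1 N (monomial a 1) = (p : B) ^ J * y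

/-! ### the functional of the pencil `s Σ^D - N + λ ∑ z_i^D` -/

/-- `J2`: relations, `e`, values -/
def JT0Stmt : Prop := ∀ (E : Type) [Field E] [CharZero E] (n D : ℕ), 0 < D →
  ∀ N : Poly n E, N.IsHomogeneous D →
    map (exTl E) (Psl D N) = map (swp E) (PL D (X1p D N)) ∧
    (∀ i g, J2 D N (Dop (map (exTl E) (Psl D N)) i g) = 0) ∧
    J2 D N (map (exTl E) (eP D n (Psl D N))) = 1 ∧
    (∀ (a : Fin (n + 1) →₀ ℕ), (∀ k : ℤ, k < 0 → (J2 D N (monomial a 1)).coeff k = 0) ∧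
      (∀ k k' : ℤ, k' ≤ 0 → ((J2 D N (monomial a 1)).coeff k).coeff k' = 0) ∧
      ∀ k : ℕ, ((J2 D N (monomial a 1)).coeff 0).coeff ((k : ℤ) + 1) =
        aN D N k (monomial a 1))

/-- `J2` and the derivations: `λ d/dλ`, `s d/ds = - T d/dT`, constants -/
def JTNStmt : Prop := ∀ (X : Idx) (E : Type) [Field E] [CharZero E] (A : PF X E) (n D : ℕ),
  0 < D → ∀ N : Poly n E, N.IsHomogeneous D → ∀ g : Poly n (RatFunc (RatFunc E)),
    (∀ k k' : ℤ, ((J2 D N (map (exTl E) (nab0 (A.ext.ext.D none) (Psl D N) g))).coeff k).coeff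
      k' = (k : E) * ((J2 D N (map (exTl E) g)).coeff k).coeff k') ∧
    (∀ k k' : ℤ, ((J2 D N (map (exTl E) (nab0 (A.ext.ext.D (some none)) (Psl D N)
      g))).coeff k).coeff k' = -(k' : E) * ((J2 D N (map (exTl E) g)).coeff k).coeff k') ∧
    (∀ j : A.J, ∀ k k' : ℤ, ((J2 D N (map (exTl E) (nab0 (A.ext.ext.D (some (some j)))
      (Psl D N) g))).coeff k).coeff k' =
      A.D j (((J2 D N (map (exTl E) g)).coeff k).coeff k'))

/-- `J2` and Frobenius in multiplied form (helper91's `MC`) -/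
def JT1Stmt : Prop := ∀ (X : Idx) (E : Type) [Field E] [CharZero E] (A : PF X E) (hA : A.Ax)
  (hX : XPHStmt) (n D : ℕ), 0 < D → ∀ N : Poly n E, N.IsHomogeneous D →
  ∀ (ι : Type) [Fintype ι] [DecidableEq ι] (b : ι → Poly n (RatFunc (RatFunc E)))
    (l : ι → ℕ) (co : Poly n (RatFunc (RatFunc E)) →ₗ[RatFunc (RatFunc E)]
      (ι → RatFunc (RatFunc E))), IsCo (Psl D N) D b l co →
  (∀ j, b j = eP D n (Psl D N) ∨ ∃ a, b j = monomial a 1) → ∀ M, 1 ≤ M → ∃ C : ℕ,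
  ∀ C3 : ℕ, X.Ev fun i => FUN.MC ((FUN.TG.inf A hA).lau hX) i n M ((C3 * X.p i : ℕ) : ℤ)
    (C * X.p i) (fun j => J2 D N (map (exTl E) (b j)))
    (matB (X.p i) D M (A.ext.ext.phi i) (Psl D N) b co).transpose

/-! ### base change and scaling -/

/-- `V(P) → V(P')` for `κ P = a P'`: `g ↦ a ^ (-m) κ g` on level `m`. -/
def BCStmt : Prop := ∀ (F F' : Type) [Field F] [Field F'] [CharZero F] [CharZero F']
  (κ : F →+* F') (n D : ℕ), 0 < D → ∀ (P : Poly n F) (P' : Poly n F') (a : F'), a ≠ 0 →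
  P.IsHomogeneous D → P'.IsHomogeneous D → map κ P = C a * P' →
  ∀ (N N' : Finset (Fin (n + 1) →₀ ℕ)) (co : Poly n F →ₗ[F] (Option N → F))
    (co' : Poly n F' →ₗ[F'] (Option N' → F')) (b : Option N → Poly n F)
    (b' : Option N' → Poly n F') (l : Option N → ℕ) (l' : Option N' → ℕ),
  IsCo P D b l co → IsCo P' D b' l' co' → b none = eP D n P → b' none = eP D n P' →
  (∀ x : N, b (some x) = monomial x.1 1) → (∀ x : N', b' (some x) = monomial x.1 1) →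
  (∀ x : N, x.1.degree + (n + 1) ≤ D * n) → (∀ x : N', x.1.degree + (n + 1) ≤ D * n) →
  (∀ c : Fin (n + 1) →₀ ℕ, c.degree + (n + 1) ≤ D * n → co' (monomial c 1) none = 0) →
    (∀ g, WtD D g → co' (scl D a (map κ g)) =
      (matR κ D a b co').mulVec fun j => κ (co g j)) ∧
    (∀ (δ : Derivation ℤ F F) (δ' : Derivation ℤ F' F'), (∀ x, δ' (κ x) = κ (δ x)) →
      δ' a = 0 → (matR κ D a b co').map δ' + matG δ' P' b' co' * matR κ D a b co' =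
        matR κ D a b co' * (matG δ P b co).map κ) ∧
    (∀ j, matR κ D a b co' none j = if j = none then 1 else 0) ∧
    (∀ x, matR κ D a b co' x none = if x = none then 1 else 0)

end Pool.CUBE
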