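import Pool.Agent.H41.CUBE.TDefs
import Pool.Agent.H91.CUBE.Fun
import Pool.Agent.H50.CUBE.D2

/-!
# Cube project (MP_47888e_al), block TAME, part J: definitions

Text: /team-store/CUBE_TAME.md, T.6. The functional `J` of `P = s Σ^D - X₁` expanded in
`T = 1/s`: `J(z^a) = ∑_N a_N(z^a) T^(N+1)`.
-/

set_option autoImplicit false

open Finset MvPolynomial Pool.CM

namespace Pool.CUBE

/-- `z_0 + ⋯ + z_n` -/
noncomputable def Sg (n : ℕ) (A : Type) [CommRing A] : Poly n A := ∑ i, X i

/-- `z ^ a ↦ ∏ a_i!` -/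
noncomputable def JS {n : ℕ} {A : Type} [CommRing A] : Poly n A →ₗ[A] A :=
  linMon fun a => ((∏ i, (a i).factorial : ℕ) : A)

section
variable {n : ℕ} {B : Type} [CommRing B] [Algebra ℚ B]

/-- `z ^ a ↦ ∏ a_i! / (|a| + n)!` -/
noncomputable def IoQ : Poly n B →ₗ[B] B :=
  linMon fun a => algebraMap ℚ B
    (((∏ i, (a i).factorial : ℕ) : ℚ) / ((a.degree + n).factorial : ℚ))

/-- the coefficient of `s ^ (-N-1)` of the functional `J`: on `z ^ a` of level `L`:
`N! / (N + 1 - L)! IoQ(z ^ a X₁ ^ (N + 1 - L))` -/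
noncomputable def aN (D : ℕ) (X1 : Poly n B) (N : ℕ) : Poly n B →ₗ[B] B :=
  linMon fun a => if D ∣ a.degree + (n + 1) ∧ (a.degree + (n + 1)) / D ≤ N + 1 then
    algebraMap ℚ B ((N.factorial : ℚ) /
      ((N + 1 - (a.degree + (n + 1)) / D).factorial : ℚ)) *
      IoQ (monomial a 1 * X1 ^ (N + 1 - (a.degree + (n + 1)) / D)) else 0

/-- `P = s Σ^D - X₁` over `B((T))`, `s = 1 / T` -/
noncomputable def PL (D : ℕ) (X1 : Poly n B) : Poly n (LaurentSeries B) :=
  C (HahnSeries.single (-1) 1) * Sg n (LaurentSeries B) ^ D -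
    map (HahnSeries.C : B →+* LaurentSeries B) X1

/-- `J(z ^ a)` -/
noncomputable def jL (D : ℕ) (X1 : Poly n B) (a : Fin (n + 1) →₀ ℕ) : LaurentSeries B :=
  HahnSeries.ofPowerSeries ℤ B
    (PowerSeries.mk fun k => if k = 0 then 0 else aN D X1 (k - 1) (monomial a 1))

/-- the functional `J` -/
noncomputable def JL (D : ℕ) (X1 : Poly n B) :
    Poly n (LaurentSeries B) →ₗ[LaurentSeries B] LaurentSeries B :=
  linMon fun a => jL D X1 a

/-- the functional `J^φ` -/
noncomputable def JLp (D : ℕ) (X1 : Poly n B) (φ : B →+* B) (p : ℕ) (hp : 0 < p) :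
    Poly n (LaurentSeries B) →ₗ[LaurentSeries B] LaurentSeries B :=
  linMon fun a => FUN.phiL φ p hp (jL D X1 a)

end

/-- `IoA s` : `IoQ` on weight `s` over a ring in which `(s - 1)!` is invertible -/
noncomputable def IoA {n : ℕ} {A : Type} [CommRing A] (s : ℕ) (h : Poly n A) : A :=
  Ring.inverse (((s - 1).factorial : ℕ) : A) * JS (lev s h)

/-- The functional on `A[z][y] / (1 - Σ(z^p) y)`, `y` of weight `-p`. -/
noncomputable def WF {n : ℕ} {A : Type} [CommRing A] (p : ℕ) (w : Polynomial (Poly n A)) : A :=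
  w.sum fun s h => IoA s (psi p (lev (p * s) h))

/-! ### two variables -/

/-- multiplication of Laurent series through bounded intervals -/
theorem coeff_mul_IccR {R : Type} [CommRing R] {f g : LaurentSeries R} {a b : ℤ}
    (hf : ∀ k < a, f.coeff k = 0) (hg : ∀ k < b, g.coeff k = 0) (k : ℤ) :
    (f * g).coeff k = ∑ j ∈ Finset.Icc a (k - b), f.coeff j * g.coeff (k - j) := by
  classical
  rw [HahnSeries.coeff_mul]
  have hsub : ((Finset.Icc a (k - b)).filter (fun j => f.coeff j ≠ 0 ∧ g.coeff (k - j) ≠ 0)) ⊆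
      Finset.Icc a (k - b) := Finset.filter_subset _ _
  rw [← Finset.sum_subset hsub]
  · refine Finset.sum_nbij' (fun x => x.1) (fun j => (j, k - j)) ?_ ?_ ?_ ?_ ?_
    · rintro ⟨x, y⟩ h
      rw [Finset.mem_antidiagonal] at h
      obtain ⟨h1, h2, h3⟩ := h
      simp only at h1 h2 h3
      have hy : y = k - x := by omega
      subst hy
      refine Finset.mem_filter.2 ⟨Finset.mem_Icc.2 ⟨?_, ?_⟩, h1, h2⟩
      · by_contra hc
        exact h1 (hf _ (not_le.1 hc))
      · by_contra hc
        exact h2 (hg _ (by omega))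
    · intro j hj
      obtain ⟨h0, h1, h2⟩ := Finset.mem_filter.1 hj
      rw [Finset.mem_antidiagonal]
      exact ⟨h1, h2, by simp only; omega⟩
    · rintro ⟨x, y⟩ h
      rw [Finset.mem_antidiagonal] at h
      obtain ⟨h1, h2, h3⟩ := h
      simp only at h3
      simp only [Prod.mk.injEq, true_and]
      omega
    · intro j hj
      rfl
    · rintro ⟨x, y⟩ h
      rw [Finset.mem_antidiagonal] at h
      obtain ⟨h1, h2, h3⟩ := h
      simp only at h3
      have hy : y = k - x := by omega
      subst hy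
      rfl
  · intro j hj hn
    by_contra hc
    exact hn (Finset.mem_filter.2 ⟨hj, left_ne_zero_of_mul hc, right_ne_zero_of_mul hc⟩)

/-- the coefficient of `λ ^ j` -/
noncomputable def swc (E : Type) [Field E] (j : ℕ) : LaurentSeries (Polynomial E) →+
    LaurentSeries E where
  toFun f :=
    { coeff := fun k => (f.coeff k).coeff j
      isPWO_support' := f.isPWO_support'.mono fun k hk => by
        rw [Function.mem_support] at hk ⊢
        intro h0
        exact hk (by rw [h0, Polynomial.coeff_zero]) }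
  map_zero' := by
    ext k
    simp
  map_add' f g := by
    ext k
    simp

theorem swc_coeff {E : Type} [Field E] (j : ℕ) (f : LaurentSeries (Polynomial E)) (k : ℤ) :
    (swc E j f).coeff k = (f.coeff k).coeff j := rfl

/-- exchange of variables: `∑_k T^k f_k(λ) ↦ ∑_j λ^j ∑_k T^k f_(k,j)`, `f_k` polynomials in `λ` -/
noncomputable def swP (E : Type) [Field E] :
    LaurentSeries (Polynomial E) →+* PowerSeries (LaurentSeries E) where
  toFun f := PowerSeries.mk fun j => swc E j f
  map_zero' := by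
    ext j : 1
    rw [PowerSeries.coeff_mk, map_zero, map_zero]
  map_one' := by
    ext j : 1
    rw [PowerSeries.coeff_mk, PowerSeries.coeff_one]
    ext k
    rw [swc_coeff, HahnSeries.coeff_one]
    by_cases hk : k = 0
    · rw [if_pos hk, Polynomial.coeff_one]
      by_cases hj : j = 0
      · rw [if_pos hj, if_pos hj, HahnSeries.coeff_one, if_pos hk]
      · rw [if_neg hj, if_neg hj, HahnSeries.coeff_zero]
    · rw [if_neg hk, Polynomial.coeff_zero]
      by_cases hj : j = 0
      · rw [if_pos hj, HahnSeries.coeff_one, if_neg hk]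
      · rw [if_neg hj, HahnSeries.coeff_zero]
  map_add' f g := by
    ext j : 1
    rw [PowerSeries.coeff_mk, map_add, map_add, PowerSeries.coeff_mk, PowerSeries.coeff_mk]
  map_mul' f g := by
    ext j : 1
    rw [PowerSeries.coeff_mk, PowerSeries.coeff_mul]
    ext k
    have hf : ∀ l < f.order, f.coeff l = 0 := fun l hl => HahnSeries.coeff_eq_zero_of_lt_order hl
    have hg : ∀ l < g.order, g.coeff l = 0 := fun l hl => HahnSeries.coeff_eq_zero_of_lt_order hl
    rw [swc_coeff, coeff_mul_IccR hf hg, Polynomial.finsetSum_coeff, HahnSeries.coeff_sum]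
    have h1 : ∀ x : ℕ × ℕ, (PowerSeries.coeff x.1 (PowerSeries.mk fun j => swc E j f) *
        PowerSeries.coeff x.2 (PowerSeries.mk fun j => swc E j g)).coeff k =
        ∑ l ∈ Finset.Icc f.order (k - g.order), (f.coeff l).coeff x.1 *
          (g.coeff (k - l)).coeff x.2 := by
      intro x
      rw [PowerSeries.coeff_mk, PowerSeries.coeff_mk, coeff_mul_IccR (a := f.order) (b := g.order)]
      · rfl
      · intro l hl
        rw [swc_coeff, hf l hl, Polynomial.coeff_zero]
      · intro l hl
        rw [swc_coeff, hg l hl, Polynomial.coeff_zero]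
    rw [Finset.sum_congr rfl fun x _ => h1 x, Finset.sum_comm]
    refine Finset.sum_congr rfl fun l _ => ?_
    rw [Polynomial.coeff_mul]

/-- exchange of variables, into Laurent series -/
noncomputable def swp (E : Type) [Field E] :
    LaurentSeries (Polynomial E) →+* LaurentSeries (LaurentSeries E) :=
  (HahnSeries.ofPowerSeries ℤ (LaurentSeries E)).comp (swP E)

theorem swp_coeff {E : Type} [Field E] (f : LaurentSeries (Polynomial E)) (j : ℕ) (k : ℤ) :
    ((swp E f).coeff (j : ℤ)).coeff k = (f.coeff k).coeff j := by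
  change ((HahnSeries.ofPowerSeries ℤ (LaurentSeries E) (swP E f)).coeff (j : ℤ)).coeff k = _
  rw [HahnSeries.ofPowerSeries_apply_coeff]
  change ((PowerSeries.coeff j) (PowerSeries.mk fun j => swc E j f)).coeff k = _
  rw [PowerSeries.coeff_mk]
  rfl

theorem swp_coeff_neg {E : Type} [Field E] (f : LaurentSeries (Polynomial E)) (j : ℤ)
    (hj : j < 0) : (swp E f).coeff j = 0 := by
  change (HahnSeries.ofPowerSeries ℤ (LaurentSeries E) (swP E f)).coeff j = 0
  rw [HahnSeries.ofPowerSeries_apply]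
  refine HahnSeries.embDomain_of_notMem_range ?_
  rintro ⟨n, hn⟩
  have : (n : ℤ) = j := hn
  omega

/-! ### the functional of the generic pencil `s Σ^D - N + λ ∑ z_i^D` -/

section
variable {n : ℕ} {E : Type} [Field E]

theorem infP_phiP {φ : E →+* E} (p : ℕ) (hp : 0 < p) (g : Polynomial E) :
    D.infP E (phiP φ p g) = FUN.phiL φ p hp (D.infP E g) := by
  have h : (D.infP E).comp (phiP φ p) = (FUN.phiL φ p hp).comp (D.infP E) := by
    refine Polynomial.ringHom_ext (fun c => ?_) ?_
    · rw [RingHom.comp_apply, RingHom.comp_apply, phiP_apply, Polynomial.map_C,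
        Polynomial.expand_C]
      change Polynomial.eval₂ _ _ (Polynomial.C (φ c)) =
        FUN.phiL φ p hp (Polynomial.eval₂ _ _ (Polynomial.C c))
      rw [Polynomial.eval₂_C, Polynomial.eval₂_C, FUN.phiL_C]
    · rw [RingHom.comp_apply, RingHom.comp_apply, phiP_apply, Polynomial.map_X,
        Polynomial.expand_X]
      have h1 : D.infP E Polynomial.X = HahnSeries.single (-1) 1 := by
        change Polynomial.eval₂ _ _ Polynomial.X = _
        rw [Polynomial.eval₂_X]
      rw [map_pow, h1, HahnSeries.single_pow, one_pow]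
      ext k
      by_cases hk : (p : ℤ) ∣ k
      · obtain ⟨b, rfl⟩ := hk
        rw [FUN.phiL_coeff_mul, HahnSeries.coeff_single, HahnSeries.coeff_single]
        have : (p : ℤ) * b = p • (-1 : ℤ) ↔ b = -1 := by
          rw [nsmul_eq_mul]
          exact ⟨fun h => mul_left_cancel₀ (by exact_mod_cast hp.ne') h, fun h => by rw [h]⟩
        by_cases hb : b = -1
        · rw [if_pos hb, if_pos (this.2 hb), map_one]
        · rw [if_neg hb, if_neg (fun h => hb (this.1 h)), map_zero]
      · rw [FUN.phiL_coeff_not φ p hp _ k hk, HahnSeries.coeff_single, if_neg]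
        rintro rfl
        exact hk ⟨-1, by rw [nsmul_eq_mul]⟩
  exact RingHom.congr_fun h g

theorem exInf_phi {X : Idx} (A : PF X E) (i : X.I) (x : RatFunc E) :
    D.exInf E (A.ext.phi i x) = FUN.phiL (A.phi i) (X.p i) (X.hp i).pos (D.exInf E x) := by
  obtain ⟨g, h, hh, rfl⟩ := IsFractionRing.div_surjective (A := Polynomial E) x
  have key : ∀ g : Polynomial E, D.exInf E (A.ext.phi i (algebraMap _ (RatFunc E) g)) =
      FUN.phiL (A.phi i) (X.p i) (X.hp i).pos (D.exInf E (algebraMap _ (RatFunc E) g)) := by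
    intro g
    change D.exInf E (phiR (A.phi i) (X.p i) (X.hp i).pos _) = _
    rw [phiR_algebraMap, D.exInf_algebraMap, D.exInf_algebraMap, infP_phiP _ (X.hp i).pos]
  have h1 : FUN.phiL (A.phi i) (X.p i) (X.hp i).pos (D.exInf E (algebraMap _ (RatFunc E) g /
      algebraMap _ (RatFunc E) h)) = D.exInf E (A.ext.phi i (algebraMap _ (RatFunc E) g)) /
      D.exInf E (A.ext.phi i (algebraMap _ (RatFunc E) h)) := by
    rw [key, key, map_div₀, map_div₀]
  rw [h1, map_div₀, map_div₀]

theorem infP_mul_coeff (g : Polynomial E) (f : LaurentSeries E) (k : ℤ) :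
    (D.infP E g * f).coeff k = ∑ j ∈ Finset.range (g.natDegree + 1),
      g.coeff j * f.coeff (k + j) := by
  have h1 : D.infP E g = ∑ j ∈ Finset.range (g.natDegree + 1),
      HahnSeries.single (-(j : ℤ)) (g.coeff j) := by
    conv_lhs => rw [g.as_sum_range_C_mul_X_pow]
    rw [map_sum]
    refine Finset.sum_congr rfl fun j _ => ?_
    change Polynomial.eval₂ _ _ _ = _
    rw [Polynomial.eval₂_mul, Polynomial.eval₂_C, Polynomial.eval₂_pow, Polynomial.eval₂_X,
      HahnSeries.single_pow, one_pow]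
    rw [HahnSeries.C_apply, HahnSeries.single_mul_single, mul_one, zero_add]
    congr 2
    rw [nsmul_eq_mul, mul_neg, mul_one]
  rw [h1, Finset.sum_mul, HahnSeries.coeff_sum]
  refine Finset.sum_congr rfl fun j _ => ?_
  rw [HahnSeries.coeff_single_mul, sub_neg_eq_add]

/-- test groups on `E((T))`, `T = 1 / s`, over `A.ext` -/
noncomputable def tgInf {X : Idx} {E : Type} [Field E] (A : PF X E) (hA : A.Ax) :
    FUN.TG A.ext (LaurentSeries E) where
  ι := D.exInf E
  φ i := FUN.phiL (A.phi i) (X.p i) (X.hp i).pos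
  φι i x := (exInf_phi A i x).symm
  Z i M L :=
    { carrier := {f | ∀ k : ℤ, k ≤ L → A.Dv i M (f.coeff k)}
      add_mem' := by
        intro f g hf hg k hk
        obtain ⟨a, ha, e⟩ := hf k hk
        obtain ⟨b, hb, e'⟩ := hg k hk
        exact ⟨a + b, (A.O i).add_mem ha hb, by rw [HahnSeries.coeff_add, e, e']; ring⟩
      zero_mem' := by
        intro k _
        exact ⟨0, (A.O i).zero_mem, by rw [HahnSeries.coeff_zero, mul_zero]⟩
      neg_mem' := by
        intro f hf k hk
        obtain ⟨a, ha, e⟩ := hf k hk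
        exact ⟨-a, (A.O i).neg_mem ha, by rw [HahnSeries.coeff_neg, e]; ring⟩ }
  anti i M M' L L' hM hL f hf k hk := by
    obtain ⟨a, ha, e⟩ := hf k (hk.trans hL)
    refine ⟨(X.p i : E) ^ (M - M') * a,
      (A.O i).mul_mem ((A.O i).pow_mem (natCast_mem _ _) _) ha, ?_⟩
    rw [e, ← mul_assoc, ← pow_add, Nat.add_sub_cancel' hM]
  pol i M L d x z hx hz k hk := by
    obtain ⟨g, hg, rfl⟩ := hx
    rw [D.exInf_algebraMap, infP_mul_coeff]
    refine FUN.dv_sum _ _ fun j hj => ?_
    have hj' : j ≤ d := (Nat.lt_succ_iff.1 (Finset.mem_range.1 hj)).trans hg.1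
    exact FUN.dv_mul (hA.pol_O i d _ (hg.2 j)) (hz _ (by omega))
  pw i M L z hz k hk := by
    obtain ⟨a, ha, e⟩ := hz k hk
    refine ⟨a, ha, ?_⟩
    have h2 : (X.p i : LaurentSeries E) ^ M = HahnSeries.C ((X.p i : E) ^ M) := by
      rw [map_pow, map_natCast]
    rw [h2, HahnSeries.C_apply, HahnSeries.coeff_single_zero_mul, e, pow_zero, one_mul]

variable [CharZero E]

/-- `X₁ = N - λ ∑ z_i^D` over `E[λ]` -/
noncomputable def X1p (D : ℕ) (N : Poly n E) : Poly n (Polynomial E) :=
  map Polynomial.C N - C Polynomial.X * ∑ i, X i ^ D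

/-- `s Σ^D - N` over `E(s)` -/
noncomputable def P0s (D : ℕ) (N : Poly n E) : Poly n (RatFunc E) :=
  C RatFunc.X * Sg n (RatFunc E) ^ D - map (algebraMap E (RatFunc E)) N

/-- `s Σ^D - N + λ ∑ z_i^D` over `E(s)(λ)` -/
noncomputable def Psl (D : ℕ) (N : Poly n E) : Poly n (RatFunc (RatFunc E)) :=
  ferm D (P0s D N)

/-- expansion in `T = 1 / s` (inner) and `λ` (outer) -/
noncomputable def exTl (E : Type) [Field E] :
    RatFunc (RatFunc E) →+* LaurentSeries (LaurentSeries E) :=
  (FUN.mapL (D.exInf E)).comp (ex (RatFunc E))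

/-- the functional `J` of the pencil, with values in `E((T))((λ))` -/
noncomputable def J2 (D : ℕ) (N : Poly n E) :
    Poly n (LaurentSeries (LaurentSeries E)) →ₗ[LaurentSeries (LaurentSeries E)]
      LaurentSeries (LaurentSeries E) :=
  linMon fun a => swp E (jL D (X1p D N) a)

end

/-! ### base change and scaling -/

/-- `g ↦ a ^ (-m) g` on level `m` -/
noncomputable def scl {n : ℕ} {F : Type} [Field F] (D : ℕ) (a : F) : Poly n F →ₗ[F] Poly n F :=
  linMon fun b => if D ∣ b.degree + (n + 1) then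
    monomial b (a⁻¹ ^ ((b.degree + (n + 1)) / D)) else 0

/-- the matrix of `V(P) → V(P')`, `κ P = a P'` -/
noncomputable def matR {n : ℕ} {F F' : Type} [Field F] [Field F'] {N N' : Type} [Fintype N']
    (κ : F →+* F') (D : ℕ) (a : F') (b : N → Poly n F) (co' : Poly n F' →ₗ[F'] (N' → F')) :
    Matrix N' N F' :=
  Matrix.of fun x j => co' (scl D a (map κ (b j))) x

end Pool.CUBE
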