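import Pool.Agent.H98.CUBE.Hor
import Pool.Agent.H93.CUBE.LDefs

/-!
# Cube project (MP_47888e_al), block TAME: definitions

Text: /team-store/CUBE_TAME.md. Numerators as in `Pool.Agent.H98.CUBE`: a numerator `g` stands for
the interior polynomial `z_0 ⋯ z_n g`; a monomial `z ^ a` has weight `|a| + (n + 1)` and level `m`
if its weight is `D * m`.
-/

set_option autoImplicit false

open Finset MvPolynomial Pool.CM

namespace Pool.CUBE

/-- numerators -/
abbrev Poly (n : ℕ) (A : Type) [CommRing A] : Type := MvPolynomial (Fin (n + 1)) A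

section
variable {n : ℕ} {A : Type} [CommRing A]

/-- all coefficients are in `G` -/
def CoefIn (G : AddSubgroup A) (g : Poly n A) : Prop := ∀ a, coeff a g ∈ G

/-- all monomials have weight `N` -/
def Wt (N : ℕ) (g : Poly n A) : Prop := ∀ a, coeff a g ≠ 0 → a.degree + (n + 1) = N

/-- all monomials have weight divisible by `D` -/
def WtD (D : ℕ) (g : Poly n A) : Prop := ∀ a, coeff a g ≠ 0 → D ∣ a.degree + (n + 1)

/-- reduced polynomials: all exponents are `< D` -/
def Rd (D : ℕ) (g : Poly n A) : Prop := ∀ a, coeff a g ≠ 0 → ∀ i, a i < D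

/-- multiplicative filtrations -/
structure Filt (S : ℕ → AddSubgroup A) : Prop where
  mono : ∀ a b, a ≤ b → S a ≤ S b
  one : (1 : A) ∈ S 0
  mul : ∀ a b x y, x ∈ S a → y ∈ S b → x * y ∈ S (a + b)

/-- Reduction at level `m + 1`: every monomial of level `m + 1` is `∑ (θ_i P) g_i + r`, with `g_i`
of level `m`, `r` reduced, and coefficients in `G`. -/
def RedAt (P : Poly n A) (D : ℕ) (G : AddSubgroup A) (m : ℕ) : Prop :=
  ∀ a : Fin (n + 1) →₀ ℕ, a.degree + (n + 1) = D * (m + 1) →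
    ∃ (g : Fin (n + 1) → Poly n A) (r : Poly n A),
      (monomial a 1 : Poly n A) = ∑ i, ez i P * g i + r ∧
      (∀ i, Wt (D * m) (g i)) ∧ Wt (D * (m + 1)) r ∧ Rd D r ∧
      (∀ i, CoefIn G (g i)) ∧ CoefIn G r

variable {N : Type} [Fintype N] [DecidableEq N]

/-- Coordinates: `b j` is a polynomial of level `l j`, the classes of the `b j` are a basis of the
part of `V(P)` of weights divisible by `D`, `co` gives the coordinates (and is zero on the other
weights). -/
structure IsCo (P : Poly n A) (D : ℕ) (b : N → Poly n A) (l : N → ℕ)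
    (co : Poly n A →ₗ[A] (N → A)) : Prop where
  lb : ∀ j, Wt (D * l j) (b j)
  l1 : ∀ j, 1 ≤ l j ∧ l j ≤ n + 1
  rel : ∀ i g, co (Dop P i g) = 0
  nd : ∀ a, ¬ D ∣ a.degree + (n + 1) → co (monomial a 1) = 0
  cb : ∀ j, co (b j) = Pi.single j 1
  span : ∀ g, WtD D g → g - ∑ j, co g j • b j ∈ Rel P

/-- `P`, `b`, `co` are controlled by the filtration `S`. -/
def Ctl (P : Poly n A) (D : ℕ) (b : N → Poly n A) (co : Poly n A →ₗ[A] (N → A))
    (S : ℕ → AddSubgroup A) : Prop :=
  ∀ (m k : ℕ) (g : Poly n A), Wt (D * m) g → CoefIn (S k) g →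
    (∀ j, co g j ∈ S (k + m + 1)) ∧ ∃ h : Fin (n + 1) → Poly n A, (∀ i, WtD D (h i)) ∧
      (∀ i, CoefIn (S (k + m + 1)) (h i)) ∧ g = ∑ j, co g j • b j + ∑ i, Dop P i (h i)

/-- base change of coordinates along a ring homomorphism -/
noncomputable def coF {B : Type} [CommRing B] (φ : A →+* B) (co : Poly n A →ₗ[A] (N → A)) :
    Poly n B →ₗ[B] (N → B) :=
  linMon fun a j => φ (co (monomial a 1) j)

/-- The Frobenius on numerators: for `z ^ a` of level `m`, `t = ⌈m / p⌉`:
`∑_(j < J) (-1) ^ j γ_j ((m - 1)! / (t - 1)!) ψ(z ^ a P ^ (p t - m) E ^ j)`;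
other monomials go to `0`. -/
noncomputable def rho0 (p D J : ℕ) (γ : ℕ → A) (P E : Poly n A) : Poly n A →ₗ[A] Poly n A :=
  linMon fun a => if D ∣ a.degree + (n + 1) then
    ((FD.K ((a.degree + (n + 1)) / D) (((a.degree + (n + 1)) / D + p - 1) / p) : ℕ) : A) •
      ∑ j ∈ range J, ((-1) ^ j * γ j) •
        psi p (monomial a 1 *
          P ^ (p * (((a.degree + (n + 1)) / D + p - 1) / p) - (a.degree + (n + 1)) / D) * E ^ j)
    else 0

end

/-! ### Fields of characteristic zero -/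

section
variable {n : ℕ} {E : Type} [Field E]

/-- `p ^ j / j!` -/
noncomputable def gam (E : Type) [Field E] (p j : ℕ) : E := (p : E) ^ j / (j.factorial : E)

/-- the coefficients of the truncated Frobenius on level `m` -/
noncomputable def cc (E : Type) [Field E] (p n m j : ℕ) : E :=
  (p : E) ^ (n + j) * ((m + j - 1).factorial : E) /
    ((j.factorial : E) * ((p * (m + j) - 1).factorial : E))

/-- `E_P = (P ^ p - P^φ(z ^ p)) / p` -/
noncomputable def EE (p : ℕ) (φ : E →+* E) (P : Poly n E) : Poly n E :=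
  C ((p : E)⁻¹) * (P ^ p - expand p (map φ P))

/-- the Frobenius `ρ` over a field of characteristic zero -/
noncomputable def rhoE (p D J : ℕ) (φ : E →+* E) (P : Poly n E) : Poly n E →ₗ[E] Poly n E :=
  rho0 p D J (gam E p) P (EE p φ P)

/-- the truncated Frobenius `y` on a polynomial of level `m` -/
noncomputable def yE (p J m : ℕ) (φ : E →+* E) (P g : Poly n E) : Poly n E :=
  ∑ j ∈ range J, cc E p n m j • (pb p g * EE p φ P ^ j)

/-- the matrix of `Psi` -/
noncomputable def matB {N : Type} [Fintype N] [DecidableEq N] (p D J : ℕ) (φ : E →+* E)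
    (P : Poly n E) (b : N → Poly n E) (co : Poly n E →ₗ[E] (N → E)) : Matrix N N E :=
  Matrix.of fun a j => coF φ co (rhoE p D J φ P (b j)) a

/-- the matrix of the truncated Frobenius `y` -/
noncomputable def matA {N : Type} [Fintype N] [DecidableEq N] (p J : ℕ) (φ : E →+* E)
    (P : Poly n E) (b : N → Poly n E) (l : N → ℕ) (co : Poly n E →ₗ[E] (N → E)) :
    Matrix N N E :=
  Matrix.of fun a j => co (yE p J (l j) φ P (map φ (b j))) a

/-- the connection matrix -/
noncomputable def matG {N : Type} [Fintype N] [DecidableEq N] (δ : Derivation ℤ E E)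
    (P : Poly n E) (b : N → Poly n E) (co : Poly n E →ₗ[E] (N → E)) : Matrix N N E :=
  Matrix.of fun a j => co (nab0 δ P (b j)) a

/-- `P₀ + x ∑ z_i ^ D` over `E(x)` -/
noncomputable def ferm (D : ℕ) (P0 : Poly n E) : Poly n (RatFunc E) :=
  map (algebraMap E (RatFunc E)) P0 + C RatFunc.X * ∑ i, X i ^ D

end

/-- the face `z_0 = 0` -/
noncomputable def faceP {A : Type} [CommRing A] {n : ℕ} (P : Poly (n + 1) A) : Poly n A :=
  aeval (Fin.cases 0 X : Fin (n + 2) → Poly n A) P

/-- the special element `e_P` (numerator), of level `n + 1` -/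
noncomputable def eP {A : Type} [CommRing A] (D : ℕ) : (n : ℕ) → Poly n A → Poly n A
  | 0, P => monomial (Finsupp.single 0 (D - 1)) (coeff (Finsupp.single 0 D) P)
  | n + 1, P => pderiv 0 P * rename Fin.succ (eP D n (faceP P))

/-! ### Places -/

section
variable {X : Idx} {E : Type} [Field E]

/-- the properties of the complexity filtration of `CXStmt` at one place -/
structure IsCx (A : PF X E) (i : X.I) (Cx : ℕ → AddSubgroup E) (c : ℕ) : Prop where
  O : ∀ m x, x ∈ Cx m → x ∈ A.O i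
  mono : ∀ m m', m ≤ m' → Cx m ≤ Cx m'
  one : (1 : E) ∈ Cx 0
  mul : ∀ a b x y, x ∈ Cx a → y ∈ Cx b → x * y ∈ Cx (a + b)
  inv : ∀ k : ℕ, ¬ X.p i ∣ k → ∀ m x, x ∈ Cx m → ((k : E))⁻¹ * x ∈ Cx m
  sat : ∀ m x, x ∈ A.O i → (X.p i : E) * x ∈ Cx m → x ∈ Cx m
  t : ∀ C x, x ∈ Cx (X.p i * C) → x ∈ A.t i (X.p i * (c * C))

/-- the ring `O / p ^ M` -/
abbrev Ob (A : PF X E) (i : X.I) (M : ℕ) : Type :=
  A.O i ⧸ Ideal.span {((X.p i : ℕ) : A.O i) ^ M}

/-- `h` is the reduction modulo `p ^ M` of the integral polynomial `g` -/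
def RedTo {n : ℕ} (A : PF X E) (i : X.I) (M : ℕ) (g : Poly n E) (h : Poly n (Ob A i M)) : Prop :=
  ∃ g' : Poly n (A.O i), map (A.O i).subtype g' = g ∧ map (Ideal.Quotient.mk _) g' = h

/-- all coefficients are in `p ^ M O` -/
def CDv {n : ℕ} (A : PF X E) (i : X.I) (M : ℕ) (g : Poly n E) : Prop :=
  ∀ a, A.Dv i M (coeff a g)

/-- integral coefficients -/
def CInt {n : ℕ} (A : PF X E) (i : X.I) (g : Poly n E) : Prop := ∀ a, coeff a g ∈ A.O i

end

end Pool.CUBE
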